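import Pool.Agent.H63.AC.AllX

/-!
# Tempered places of cusp forms on `GL(3)` over number fields: beyond the exponent `1/2`

`K` is any number field, `S` any finite set of finite places, `PL S` the type of the finite places `v ∉ S`, `qq v = N v`
the norm; `α v` are the Satake parameters at `v ∉ S` of a unitary cuspidal representation `Π` of `GL_n` over `K`,
unramified outside `S` and infinity (any ramification in `S`, any central character, any type at infinity).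
`Cuspidal α` (in `Pool.Agent.H63.AC.Defs`) lists what is used of `Π`: unitarity, absolute convergence of
`L^S(s, Π × Π~)` for `Re s > 1`, and the complete adjoint `L`-function is entire of order one with its functional
equation and `(n² - 1) [K : ℚ]` factors `Γ_ℝ`.

* `(1)` `n = 3`, `c < 1/2 + 1/(16 [K : ℚ])`: the sum of `(N v)^{-c}` over the places `v ∉ S` of PRIME norm with `Π_v`
  tempered is infinite, and there are arbitrarily large `X` with at least `X^c` such places of norm `≤ X`. Over `ℚ`: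
  `c < 9/16`.
* `(2)` `n = 3`: for every `ε > 0` and ALL `X ≥ X_0(Π, ε)` there are at least `X^{1/2 - ε}` places `v ∉ S` of norm
  `≤ X` with `Π_v` tempered.
* `(3)` `n ≥ 2`, `c < 1/2 + 1/(2 (n² - 1) [K : ℚ])`: the sum of `max (0, 1 - |tr α_v|²) (N v)^{-c}` over the places
  `v ∉ S` of prime norm is infinite.
* `(4)` `n ≥ 2`: as `(2)` with the condition that `|tr α_v^k| < 1` for some `k ≥ 1`.
-/

set_option autoImplicit false

namespace Pool.Agent.Results.MP_8410ab_nt.BeyondOneHalf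

open NumberField IsDedekindDomain
open Pool.Agent.TH861.GL3 (PL qq)
open Pool.Agent.H63.AC

theorem result :
    (∀ (K : Type) [Field K] [NumberField K] (S : Finset (HeightOneSpectrum (𝓞 K))) (α : PL S → Fin 3 → ℂ),
      Cuspidal α → ∀ c : ℝ, c < 1 / 2 + 1 / (16 * Module.finrank ℚ K) →
        (¬ Summable fun v : {v : PL S // (qq v.1).Prime ∧ Tempered α v} => (qq v.1.1 : ℝ) ^ (-c)) ∧
        ∀ X₀ : ℝ, ∃ X : ℝ, X₀ ≤ X ∧
          X ^ c ≤ {v : PL S | (qq v.1).Prime ∧ Tempered α v ∧ (qq v.1 : ℝ) ≤ X}.ncard) ∧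
    (∀ (K : Type) [Field K] [NumberField K] (S : Finset (HeightOneSpectrum (𝓞 K))) (α : PL S → Fin 3 → ℂ),
      Cuspidal α → ∀ ε : ℝ, 0 < ε → ∃ N₀ : ℕ, ∀ N : ℕ, N₀ ≤ N →
        (N : ℝ) ^ (1 / 2 - ε) ≤ {v : PL S | Tempered α v ∧ qq v.1 ≤ N}.ncard) ∧
    (∀ (K : Type) [Field K] [NumberField K] (S : Finset (HeightOneSpectrum (𝓞 K))) (n : ℕ), 2 ≤ n →
      ∀ α : PL S → Fin n → ℂ, Cuspidal α →
        ∀ c : ℝ, c < 1 / 2 + 1 / (2 * ((n ^ 2 - 1 : ℕ) * Module.finrank ℚ K)) →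
          ¬ Summable fun v : {v : PL S // (qq v.1).Prime} =>
            max 0 (1 - ‖∑ i, α v.1 i‖ ^ 2) * (qq v.1.1 : ℝ) ^ (-c)) ∧
    (∀ (K : Type) [Field K] [NumberField K] (S : Finset (HeightOneSpectrum (𝓞 K))) (n : ℕ), 2 ≤ n →
      ∀ α : PL S → Fin n → ℂ, Cuspidal α → ∀ ε : ℝ, 0 < ε → ∃ N₀ : ℕ, ∀ N : ℕ, N₀ ≤ N →
        (N : ℝ) ^ (1 / 2 - ε) ≤ {v : PL S | qq v.1 ≤ N ∧ ∃ k : ℕ, ‖∑ i, α v i ^ (k + 1)‖ < 1}.ncard) := by
  refine ⟨fun K _ _ S α h c hc => ⟨diverge_tempered h hc, count_tempered h hc⟩,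
    fun K _ _ S α h ε hε => tempered_all h hε, fun K _ _ S n hn α h c hc => diverge hn h hc, ?_⟩
  intro K _ _ S n hn α h ε hε
  obtain ⟨N₀, hN₀⟩ := small_all hn h hε
  refine ⟨N₀, fun N hN => (hN₀ N hN).trans_eq ?_⟩
  have h1 : {v : PL S | qq v.1 ≤ N ∧ ∃ k : ℕ, ‖∑ i, α v i ^ (k + 1)‖ < 1} = (smallN α N : Set (PL S)) := by
    ext v
    rw [Finset.mem_coe, mem_smallN]
    rfl
  rw [h1, Set.ncard_coe_finset]

end Pool.Agent.Results.MP_8410ab_nt.BeyondOneHalf
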