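import Pool.Agent.H496.R7.Num
import Pool.Agent.H496.R7.Ded2
import Pool.Agent.H496.R7.Arith
import Pool.Agent.H496.R6.Compact

/-!
# The density hypothesis at all places together

Let `D = (a, b / K)` be a quaternion algebra over a totally real field `K`, split at the real places
`w ∈ W` (where `a` is positive) and ramified at the real places `v ∈ V` (where `a` and `b` are
negative); `V` is not empty. We bound the number of automorphic forms for the principal congruence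
subgroup of level `𝔫`, of an arbitrary single weight `n = (n_v)`, which violate the Ramanujan
conjecture at given places, finite or infinite, in the full range predicted by the density hypothesis.
-/

set_option autoImplicit false

namespace Pool.Agent.Results.MP_8410ab_nt.EveryPlace

open MeasureTheory Set Function Quaternion
open UpperHalfPlane hiding I
open scoped MatrixGroups ComplexConjugate NumberField ENNReal

section algebra
variable {K : Type} [Field K] {a b : K}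

/-- The reduced norm of the quaternion algebra `D = (a, b / K)`, in which `i² = a`, `j² = b`, `k = ij`. -/
def nrd (x : ℍ[K,a,b]) : K := x.re ^ 2 - a * x.imI ^ 2 - b * x.imJ ^ 2 + a * b * x.imK ^ 2

theorem nrd_mul (x y : ℍ[K,a,b]) : nrd (x * y) = nrd x * nrd y := by
  obtain ⟨x0, x1, x2, x3⟩ := x
  obtain ⟨y0, y1, y2, y3⟩ := y
  simp only [nrd, QuaternionAlgebra.mk_mul_mk]
  ring

theorem nrd_one : nrd (1 : ℍ[K,a,b]) = 1 := by simp [nrd]

/-- The conjugate of a quaternion. -/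
def bar (x : ℍ[K,a,b]) : ℍ[K,a,b] := ⟨x.re, -x.imI, -x.imJ, -x.imK⟩

theorem nrd_bar (x : ℍ[K,a,b]) : nrd (bar x) = nrd x := by
  simp only [nrd, bar]
  ring

theorem bar_mul_self (x : ℍ[K,a,b]) (h : nrd x = 1) : bar x * x = 1 := by
  obtain ⟨x0, x1, x2, x3⟩ := x
  simp only [nrd] at h
  simp only [bar, QuaternionAlgebra.mk_mul_mk]
  ext
  · rw [QuaternionAlgebra.re_one, ← h]
    ring
  · rw [QuaternionAlgebra.imI_one]
    ring
  · rw [QuaternionAlgebra.imJ_one]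
    ring
  · rw [QuaternionAlgebra.imK_one]
    ring

variable (a b) in
/-- The group `D¹` of elements of reduced norm one in `D = (a, b / K)`. -/
@[ext]
structure NormOne where
  el : ℍ[K,a,b]
  nrd_el : nrd el = 1

/-- The product in `D¹`. -/
def NormOne.mul (x y : NormOne a b) : NormOne a b :=
  ⟨x.el * y.el, by rw [nrd_mul, x.nrd_el, y.nrd_el, one_mul]⟩

instance : Mul (NormOne a b) := ⟨NormOne.mul⟩

instance : One (NormOne a b) := ⟨⟨1, nrd_one⟩⟩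

instance : Inv (NormOne a b) := ⟨fun x => ⟨bar x.el, by rw [nrd_bar, x.nrd_el]⟩⟩

/-- `D¹` is a group. -/
instance : Group (NormOne a b) := Group.ofLeftAxioms
  (fun x y z => NormOne.ext (mul_assoc x.el y.el z.el))
  (fun x => NormOne.ext (one_mul x.el))
  (fun x => NormOne.ext (bar_mul_self x.el x.nrd_el))

/-- The matrix of `x` at a real place at which `a` is positive. -/
noncomputable def toM (ψ : K →+* ℝ) (x : ℍ[K,a,b]) : Matrix (Fin 2) (Fin 2) ℝ :=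
  !![ψ x.re + √(ψ a) * ψ x.imI, ψ b * (ψ x.imJ + √(ψ a) * ψ x.imK);
     ψ x.imJ - √(ψ a) * ψ x.imK, ψ x.re - √(ψ a) * ψ x.imI]

theorem toM_mul {ψ : K →+* ℝ} (h : 0 < ψ a) (x y : ℍ[K,a,b]) : toM ψ (x * y) = toM ψ x * toM ψ y := by
  obtain ⟨x0, x1, x2, x3⟩ := x
  obtain ⟨y0, y1, y2, y3⟩ := y
  have hs : √(ψ a) ^ 2 = ψ a := Real.sq_sqrt h.le
  simp only [toM, QuaternionAlgebra.mk_mul_mk, Matrix.mul_fin_two, map_add, map_sub, map_mul, map_zero]
  generalize √(ψ a) = s at hs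
  rw [← hs]
  ext i j
  fin_cases i <;> fin_cases j <;> simp <;> ring

theorem toM_one (ψ : K →+* ℝ) : toM ψ (1 : ℍ[K,a,b]) = 1 := by
  rw [Matrix.one_fin_two]
  simp [toM]

theorem det_toM {ψ : K →+* ℝ} (h : 0 < ψ a) (x : ℍ[K,a,b]) : (toM ψ x).det = ψ (nrd x) := by
  have hs : √(ψ a) ^ 2 = ψ a := Real.sq_sqrt h.le
  rw [toM, Matrix.det_fin_two_of, nrd]
  simp only [map_add, map_sub, map_mul, map_pow]
  generalize √(ψ a) = s at hs
  rw [← hs]
  ring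

/-- The element of `SL₂(ℝ)` given by an element of `D¹` at a real place at which `a` is positive. -/
noncomputable def toSL (ψ : K →+* ℝ) (h : 0 < ψ a) (u : NormOne a b) : SL(2, ℝ) :=
  ⟨toM ψ u.el, by rw [det_toM h, u.nrd_el, map_one]⟩

/-- The image of `x` in Hamilton's quaternions at a real place at which `a` and `b` are negative. -/
noncomputable def toH (φ : K →+* ℝ) (x : ℍ[K,a,b]) : ℍ[ℝ] :=
  ⟨φ x.re, √(-φ a) * φ x.imI, √(-φ b) * φ x.imJ, √(-φ a) * √(-φ b) * φ x.imK⟩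

theorem toH_mul {φ : K →+* ℝ} (ha : φ a < 0) (hb : φ b < 0) (x y : ℍ[K,a,b]) :
    toH φ (x * y) = toH φ x * toH φ y := by
  obtain ⟨x0, x1, x2, x3⟩ := x
  obtain ⟨y0, y1, y2, y3⟩ := y
  have hs : √(-φ a) ^ 2 = -φ a := Real.sq_sqrt (by linarith)
  have ht : √(-φ b) ^ 2 = -φ b := Real.sq_sqrt (by linarith)
  have k0 : ∀ x : ℍ[K,a,b], (toH φ x).re = φ x.re := fun _ => rfl
  have k1 : ∀ x : ℍ[K,a,b], (toH φ x).imI = √(-φ a) * φ x.imI := fun _ => rfl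
  have k2 : ∀ x : ℍ[K,a,b], (toH φ x).imJ = √(-φ b) * φ x.imJ := fun _ => rfl
  have k3 : ∀ x : ℍ[K,a,b], (toH φ x).imK = √(-φ a) * √(-φ b) * φ x.imK := fun _ => rfl
  have hs' : φ a = -√(-φ a) ^ 2 := by linarith
  have ht' : φ b = -√(-φ b) ^ 2 := by linarith
  ext
  · rw [Quaternion.re_mul]
    simp only [k0, k1, k2, k3, QuaternionAlgebra.mk_mul_mk, map_add, map_sub, map_mul, map_zero]
    generalize √(-φ a) = s at hs'
    generalize √(-φ b) = t at ht'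
    rw [hs', ht']
    ring
  · rw [Quaternion.imI_mul]
    simp only [k0, k1, k2, k3, QuaternionAlgebra.mk_mul_mk, map_add, map_sub, map_mul, map_zero]
    generalize √(-φ a) = s at hs'
    generalize √(-φ b) = t at ht'
    rw [ht']
    ring
  · rw [Quaternion.imJ_mul]
    simp only [k0, k1, k2, k3, QuaternionAlgebra.mk_mul_mk, map_add, map_sub, map_mul, map_zero]
    generalize √(-φ a) = s at hs'
    generalize √(-φ b) = t at ht'
    rw [hs']
    ring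
  · rw [Quaternion.imK_mul]
    simp only [k0, k1, k2, k3, QuaternionAlgebra.mk_mul_mk, map_add, map_sub, map_mul, map_zero]
    ring

theorem toH_one (φ : K →+* ℝ) : toH φ (1 : ℍ[K,a,b]) = 1 := by
  ext <;> simp [toH]

theorem normSq_toH {φ : K →+* ℝ} (ha : φ a < 0) (hb : φ b < 0) (x : ℍ[K,a,b]) :
    ‖toH φ x‖ ^ 2 = φ (nrd x) := by
  have hs : √(-φ a) ^ 2 = -φ a := Real.sq_sqrt (by linarith)
  have ht : √(-φ b) ^ 2 = -φ b := Real.sq_sqrt (by linarith)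
  rw [sq, ← Quaternion.normSq_eq_norm_mul_self, Quaternion.normSq_def', nrd]
  simp only [toH, map_add, map_sub, map_mul, map_pow]
  generalize √(-φ a) = s at hs
  generalize √(-φ b) = t at ht
  have hs' : φ a = -s ^ 2 := by linarith
  have ht' : φ b = -t ^ 2 := by linarith
  rw [hs', ht']
  ring

theorem norm_toH {φ : K →+* ℝ} (ha : φ a < 0) (hb : φ b < 0) (γ : NormOne a b) : ‖toH φ γ.el‖ = 1 := by
  have h := normSq_toH ha hb γ.el
  have h1 : nrd γ.el = 1 := γ.2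
  rw [h1, map_one] at h
  have := norm_nonneg (toH φ γ.el)
  nlinarith

theorem norm_toH_sub {φ : K →+* ℝ} (ha : φ a < 0) (hb : φ b < 0) (γ : NormOne a b) :
    ‖toH φ γ.el - 1‖ ^ 2 = φ (2 - 2 * γ.el.re) := by
  have h1 := norm_toH ha hb γ
  have h2 : ‖toH φ γ.el‖ ^ 2 = 1 := by rw [h1, one_pow]
  rw [sq, ← Quaternion.normSq_eq_norm_mul_self, Quaternion.normSq_def'] at h2 ⊢
  have e0 : (toH φ γ.el - 1).re = (toH φ γ.el).re - 1 := by simp
  have e1 : (toH φ γ.el - 1).imI = (toH φ γ.el).imI := by simp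
  have e2 : (toH φ γ.el - 1).imJ = (toH φ γ.el).imJ := by simp
  have e3 : (toH φ γ.el - 1).imK = (toH φ γ.el).imK := by simp
  have e4 : φ (2 - 2 * γ.el.re) = 2 - 2 * (toH φ γ.el).re := by
    simp [toH, map_ofNat]
  rw [e0, e1, e2, e3, e4]
  linarith

theorem tr_toM (ψ : K →+* ℝ) (x : ℍ[K,a,b]) : 2 - (toM ψ x 0 0 + toM ψ x 1 1) = ψ (2 - 2 * x.re) := by
  simp [toM, map_ofNat]
  ring

theorem eq_one_of_toH {φ : K →+* ℝ} (ha : φ a < 0) (hb : φ b < 0) {γ : NormOne a b}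
    (h : φ (2 - 2 * γ.el.re) = 0) : γ = 1 := by
  rw [← norm_toH_sub ha hb] at h
  have h1 : toH φ γ.el = 1 := by
    have := pow_eq_zero_iff (two_ne_zero) |>.1 h
    exact sub_eq_zero.1 (norm_eq_zero.1 this)
  have hs : √(-φ a) ≠ 0 := (Real.sqrt_pos.2 (by linarith)).ne'
  have ht : √(-φ b) ≠ 0 := (Real.sqrt_pos.2 (by linarith)).ne'
  have hinj := φ.injective
  have k0 : φ γ.el.re = 1 := congrArg (fun q : ℍ[ℝ] => q.re) h1
  have k1 : √(-φ a) * φ γ.el.imI = 0 := congrArg (fun q : ℍ[ℝ] => q.imI) h1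
  have k2 : √(-φ b) * φ γ.el.imJ = 0 := congrArg (fun q : ℍ[ℝ] => q.imJ) h1
  have k3 : √(-φ a) * √(-φ b) * φ γ.el.imK = 0 := congrArg (fun q : ℍ[ℝ] => q.imK) h1
  have c1 : γ.el.imI = 0 := by
    have := (mul_eq_zero.1 k1).resolve_left hs
    exact (map_eq_zero φ).1 this
  have c2 : γ.el.imJ = 0 := by
    have := (mul_eq_zero.1 k2).resolve_left ht
    exact (map_eq_zero φ).1 this
  have c3 : γ.el.imK = 0 := by
    have := (mul_eq_zero.1 k3).resolve_left (mul_ne_zero hs ht)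
    exact (map_eq_zero φ).1 this
  have c0 : γ.el.re = 1 := hinj (by rw [k0, map_one])
  apply NormOne.ext
  show γ.el = 1
  ext
  · rw [c0, QuaternionAlgebra.re_one]
  · rw [c1, QuaternionAlgebra.imI_one]
  · rw [c2, QuaternionAlgebra.imJ_one]
  · rw [c3, QuaternionAlgebra.imK_one]

end algebra

section forms
variable {W V : Type}

/-- An isotropic linear form on the quaternions: `l (x X) = i l (x)` for some `X` with `X² = -1`. -/
def IsNull (l : ℍ[ℝ] →ₗ[ℝ] ℂ) : Prop :=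
  ∃ X : ℍ[ℝ], X * X = -1 ∧ ∀ x, l (x * X) = Complex.I * l x

/-- A product of powers of isotropic linear forms. -/
noncomputable def nullProd [Fintype V] (n : V → ℕ) (l : V → (ℍ[ℝ] →ₗ[ℝ] ℂ)) (x : V → ℍ[ℝ]) : ℂ := ∏ v, l v (x v) ^ n v

/-- The complex valued polynomials on `∏_{v ∈ V} ℍ[ℝ]` which are homogeneous harmonic of degree
`n v` in the variable `v`, i.e. the span of the products of powers of isotropic linear forms. -/
def Harm [Fintype V] (n : V → ℕ) : Submodule ℂ ((V → ℍ[ℝ]) → ℂ) :=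
  Submodule.span ℂ {P | ∃ l : V → (ℍ[ℝ] →ₗ[ℝ] ℂ), (∀ v, IsNull (l v)) ∧ P = nullProd n l}

/-- `e` is a twice continuously differentiable function on the upper half plane and
`y² (∂²/∂x² + ∂²/∂y²) e = -lam e`. -/
def IsEigen (e : UpperHalfPlane → ℂ) (lam : ℝ) : Prop :=
  ContDiffOn ℝ 2 (fun u : ℂ => e (ofComplex u)) {u | 0 < u.im} ∧
  ∀ u : ℂ, 0 < u.im →
    (u.im : ℂ) ^ 2 * Laplacian.laplacian (fun u : ℂ => e (ofComplex u)) u = -(lam : ℂ) * e (ofComplex u)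

/-- The Möbius action of `SL₂(ℝ)` on the upper half plane. -/
noncomputable def moebius (g : SL(2, ℝ)) (z : UpperHalfPlane) : UpperHalfPlane := g • z

/-- The unit sphere `SU(2)` of Hamilton's quaternions. -/
abbrev S3 : Type := Metric.sphere (0 : ℍ[ℝ]) 1

/-- The surface measure of the unit sphere. -/
noncomputable def area : Measure S3 := (volume : Measure ℍ[ℝ]).toSphere

/-- The invariant probability measure of the unit sphere. -/
noncomputable def surf : Measure S3 := (area univ)⁻¹ • area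

/-- The measure on `F × ∏_{v ∈ V} SU(2)`. -/
noncomputable def formMeasure [Fintype W] [Fintype V] (F : Set (W → UpperHalfPlane)) :
    Measure ((W → UpperHalfPlane) × (V → S3)) :=
  (volume.restrict F).prod (Measure.pi fun _ => surf)

/-- The scalar product over `F × ∏_{v ∈ V} SU(2)`. -/
noncomputable def petersson [Fintype W] [Fintype V] (F : Set (W → UpperHalfPlane))
    (f g : (W → UpperHalfPlane) → (V → ℍ[ℝ]) → ℂ) : ℂ :=
  ∫ p, f p.1 (fun v => (p.2 v).1) * conj (g p.1 (fun v => (p.2 v).1)) ∂(formMeasure F)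

variable [Fintype W] [DecidableEq W] [Fintype V]

/-- A quaternion algebra `D = (a, b / K)` over a totally real field `K`, with algebraic integers `a`
and `b`, split at the real places `ψ w`, `w ∈ W`, where `a` is positive, and ramified at the other
real places `φ v`, `v ∈ V`, where `a` and `b` are negative. -/
structure Setting (K : Type) [Field K] [NumberField K] (W V : Type) [Fintype W] [Fintype V] where
  a : 𝓞 K
  b : 𝓞 K
  ψ : W → K →+* ℝ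
  φ : V → K →+* ℝ
  pos : ∀ w, 0 < ψ w a
  neg : ∀ v, φ v a < 0 ∧ φ v b < 0
  inj : Injective (Sum.elim ψ φ)
  card : Fintype.card W + Fintype.card V = Module.finrank ℚ K

variable {K : Type} [Field K] [NumberField K] (S : Setting K W V)

/-- The group `D¹`. -/
abbrev Setting.D1 : Type := NormOne (S.a : K) (S.b : K)

/-- All coordinates of `x` lie in the ideal `𝔫`. -/
def AllIn {a b : K} (𝔫 : Ideal (𝓞 K)) (x : ℍ[K,a,b]) : Prop :=
  (∃ t ∈ 𝔫, (t : K) = x.re) ∧ (∃ t ∈ 𝔫, (t : K) = x.imI) ∧ (∃ t ∈ 𝔫, (t : K) = x.imJ) ∧ (∃ t ∈ 𝔫, (t : K) = x.imK)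

/-- The action of `D¹` on `∏_{w ∈ W} ℍ`. -/
noncomputable def Setting.act (γ : S.D1) (z : W → UpperHalfPlane) : W → UpperHalfPlane :=
  fun w => moebius (toSL (S.ψ w) (S.pos w) γ) (z w)

/-- The action of `D¹` on `∏_{v ∈ V} ℍ[ℝ]`. -/
noncomputable def Setting.rot (γ : S.D1) (x : V → ℍ[ℝ]) : V → ℍ[ℝ] :=
  fun v => toH (S.φ v) γ.el * x v

/-- `F` is a measurable set which meets almost every orbit of `Γ` on `∏_{w ∈ W} ℍ`, in finitely many points. -/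
def Setting.Covers (Γ : Subgroup S.D1) (F : Set (W → UpperHalfPlane)) : Prop :=
  MeasurableSet F ∧ ∀ᵐ z, {γ | γ ∈ Γ ∧ S.act γ z ∈ F}.Finite ∧ {γ | γ ∈ Γ ∧ S.act γ z ∈ F}.Nonempty

/-- `f` is an automorphic form for `Γ`, as a function on `∏_{w ∈ W} ℍ × ∏_{v ∈ V} SU(2)` (extended
to `∏_{w ∈ W} ℍ × ∏_{v ∈ V} ℍ[ℝ]` by homogeneity), of Laplace eigenvalues `lam w` and weights `n v`. -/
structure IsForm (Γ : Subgroup S.D1) (f : (W → UpperHalfPlane) → (V → ℍ[ℝ]) → ℂ) (lam : W → ℝ) (n : V → ℕ) :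
    Prop where
  continuous : Continuous (uncurry f)
  laplace : ∀ w z x, IsEigen (fun u => f (update z w u) x) (lam w)
  weight : ∀ z, f z ∈ Harm n
  invariant : ∀ γ ∈ Γ, ∀ z x, f (S.act γ z) (S.rot γ x) = f z x

end forms

theorem countable_NormOne (K : Type) [Field K] [NumberField K] (a b : K) : Countable (NormOne a b) := by
  have h1 : Countable K := Countable.of_equiv _ (Module.finBasis ℚ K).equivFun.symm.toEquiv
  have h2 : Countable ℍ[K,a,b] := Countable.of_equiv _ (QuaternionAlgebra.equivTuple a 0 b).symm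
  exact Function.Injective.countable (f := fun x : NormOne a b => x.el) fun x y h => NormOne.ext h

section integral
variable {K : Type} [Field K] {𝔫 : Ideal (𝓞 K)}

/-- being in the ideal -/
def In (𝔫 : Ideal (𝓞 K)) (x : K) : Prop := ∃ t ∈ 𝔫, (t : K) = x

theorem In.add {x y : K} (hx : In 𝔫 x) (hy : In 𝔫 y) : In 𝔫 (x + y) := by
  obtain ⟨s, hs, rfl⟩ := hx
  obtain ⟨t, ht, rfl⟩ := hy
  exact ⟨s + t, 𝔫.add_mem hs ht, by push_cast; rfl⟩

theorem In.neg {x : K} (hx : In 𝔫 x) : In 𝔫 (-x) := by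
  obtain ⟨s, hs, rfl⟩ := hx
  exact ⟨-s, 𝔫.neg_mem hs, by push_cast; rfl⟩

theorem In.sub {x y : K} (hx : In 𝔫 x) (hy : In 𝔫 y) : In 𝔫 (x - y) := by
  rw [sub_eq_add_neg]
  exact hx.add hy.neg

theorem In.mul {x y : K} (hx : In (⊤ : Ideal (𝓞 K)) x) (hy : In 𝔫 y) : In 𝔫 (x * y) := by
  obtain ⟨s, hs, rfl⟩ := hx
  obtain ⟨t, ht, rfl⟩ := hy
  exact ⟨s * t, 𝔫.mul_mem_left s ht, by push_cast; rfl⟩

theorem In.mul' {x y : K} (hx : In 𝔫 x) (hy : In (⊤ : Ideal (𝓞 K)) y) : In 𝔫 (x * y) := by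
  rw [mul_comm]
  exact hy.mul hx

theorem In.coe (t : 𝓞 K) : In (⊤ : Ideal (𝓞 K)) (t : K) := ⟨t, Submodule.mem_top, rfl⟩

variable {a b : 𝓞 K}

theorem In.zero : In 𝔫 (0 : K) := ⟨0, 𝔫.zero_mem, by push_cast; rfl⟩

theorem AllIn.mul {x y : ℍ[K,(a : K),(b : K)]} (hx : AllIn (⊤ : Ideal (𝓞 K)) x) (hy : AllIn 𝔫 y) :
    AllIn 𝔫 (x * y) := by
  obtain ⟨x0, x1, x2, x3⟩ := x
  obtain ⟨y0, y1, y2, y3⟩ := y
  obtain ⟨h0, h1, h2, h3⟩ := hx
  obtain ⟨k0, k1, k2, k3⟩ := hy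
  change In ⊤ x0 at h0
  change In ⊤ x1 at h1
  change In ⊤ x2 at h2
  change In ⊤ x3 at h3
  change In 𝔫 y0 at k0
  change In 𝔫 y1 at k1
  change In 𝔫 y2 at k2
  change In 𝔫 y3 at k3
  have ha := In.coe (K := K) a
  have hb := In.coe (K := K) b
  rw [QuaternionAlgebra.mk_mul_mk]
  simp only [zero_mul, add_zero]
  refine ⟨?_, ?_, ?_, ?_⟩
  · exact (((h0.mul k0).add ((ha.mul h1).mul k1)).add ((hb.mul h2).mul k2)).sub (((ha.mul hb).mul h3).mul k3)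
  · exact (((h0.mul k1).add (h1.mul k0)).sub ((hb.mul h2).mul k3)).add ((hb.mul h3).mul k2)
  · exact (((h0.mul k2).add ((ha.mul h1).mul k3)).add (h2.mul k0)).sub ((ha.mul h3).mul k1)
  · exact (((h0.mul k3).add (h1.mul k2)).sub (h2.mul k1)).add (h3.mul k0)

theorem AllIn.mul' {x y : ℍ[K,(a : K),(b : K)]} (hx : AllIn 𝔫 x) (hy : AllIn (⊤ : Ideal (𝓞 K)) y) :
    AllIn 𝔫 (x * y) := by
  obtain ⟨x0, x1, x2, x3⟩ := x
  obtain ⟨y0, y1, y2, y3⟩ := y
  obtain ⟨h0, h1, h2, h3⟩ := hx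
  obtain ⟨k0, k1, k2, k3⟩ := hy
  change In 𝔫 x0 at h0
  change In 𝔫 x1 at h1
  change In 𝔫 x2 at h2
  change In 𝔫 x3 at h3
  change In ⊤ y0 at k0
  change In ⊤ y1 at k1
  change In ⊤ y2 at k2
  change In ⊤ y3 at k3
  have ha := In.coe (K := K) a
  have hb := In.coe (K := K) b
  rw [QuaternionAlgebra.mk_mul_mk]
  simp only [zero_mul, add_zero]
  refine ⟨?_, ?_, ?_, ?_⟩
  · exact (((h0.mul' k0).add ((ha.mul h1).mul' k1)).add ((hb.mul h2).mul' k2)).sub (((ha.mul hb).mul h3).mul' k3)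
  · exact (((h0.mul' k1).add (h1.mul' k0)).sub ((hb.mul h2).mul' k3)).add ((hb.mul h3).mul' k2)
  · exact (((h0.mul' k2).add ((ha.mul h1).mul' k3)).add (h2.mul' k0)).sub ((ha.mul h3).mul' k1)
  · exact (((h0.mul' k3).add (h1.mul' k2)).sub (h2.mul' k1)).add (h3.mul' k0)

theorem AllIn.bar {x : ℍ[K,(a : K),(b : K)]} (hx : AllIn 𝔫 x) : AllIn 𝔫 (bar x) := by
  obtain ⟨h0, h1, h2, h3⟩ := hx
  exact ⟨h0, In.neg h1, In.neg h2, In.neg h3⟩

/-- the principal congruence subgroup is normalised by the units of the order -/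
theorem conj_mem {γ₀ γ : NormOne (a : K) (b : K)} (h0 : AllIn (⊤ : Ideal (𝓞 K)) γ₀.el)
    (h : AllIn 𝔫 (γ.el - 1)) : AllIn 𝔫 ((γ₀ * γ * γ₀⁻¹).el - 1) := by
  have h1 : γ₀.el * bar γ₀.el = 1 := congrArg NormOne.el (mul_inv_cancel γ₀)
  have e : (γ₀ * γ * γ₀⁻¹).el - 1 = γ₀.el * (γ.el - 1) * bar γ₀.el := by
    have e2 : (γ₀ * γ * γ₀⁻¹).el = γ₀.el * γ.el * bar γ₀.el := rfl
    rw [e2, mul_sub, sub_mul, mul_one, h1]
  rw [e]
  exact (h0.mul h).mul' h0.bar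

/-- the real part is a class function -/
theorem re_conj (γ₀ γ : NormOne (a : K) (b : K)) : (γ₀ * γ * γ₀⁻¹).el.re = γ.el.re := by
  have e2 : (γ₀ * γ * γ₀⁻¹).el = γ₀.el * γ.el * bar γ₀.el := rfl
  rw [e2]
  have h0 := γ₀.nrd_el
  obtain ⟨⟨x0, x1, x2, x3⟩, hx⟩ := γ₀
  obtain ⟨⟨y0, y1, y2, y3⟩, hy⟩ := γ
  simp only [nrd] at h0
  simp only [Results.MP_8410ab_nt.EveryPlace.bar, QuaternionAlgebra.mk_mul_mk]
  linear_combination y0 * h0

end integral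

section sub
variable {K : Type} [Field K] {𝔫 : Ideal (𝓞 K)} {a b : 𝓞 K}

theorem AllIn.add {x y : ℍ[K,(a : K),(b : K)]} (hx : AllIn 𝔫 x) (hy : AllIn 𝔫 y) : AllIn 𝔫 (x + y) :=
  ⟨In.add hx.1 hy.1, In.add hx.2.1 hy.2.1, In.add hx.2.2.1 hy.2.2.1, In.add hx.2.2.2 hy.2.2.2⟩

theorem AllIn.top {x : ℍ[K,(a : K),(b : K)]} (hx : AllIn 𝔫 x) : AllIn (⊤ : Ideal (𝓞 K)) x := by
  obtain ⟨⟨t0, -, e0⟩, ⟨t1, -, e1⟩, ⟨t2, -, e2⟩, ⟨t3, -, e3⟩⟩ := hx
  exact ⟨⟨t0, Submodule.mem_top, e0⟩, ⟨t1, Submodule.mem_top, e1⟩, ⟨t2, Submodule.mem_top, e2⟩,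
    ⟨t3, Submodule.mem_top, e3⟩⟩

theorem allIn_one : AllIn (⊤ : Ideal (𝓞 K)) (1 : ℍ[K,(a : K),(b : K)]) :=
  ⟨⟨1, Submodule.mem_top, rfl⟩, ⟨0, Submodule.mem_top, rfl⟩, ⟨0, Submodule.mem_top, rfl⟩,
    ⟨0, Submodule.mem_top, rfl⟩⟩

theorem allIn_of_sub {x : NormOne (a : K) (b : K)} (hx : AllIn 𝔫 (x.el - 1)) : AllIn (⊤ : Ideal (𝓞 K)) x.el := by
  have h := hx.top.add (allIn_one (a := a) (b := b))
  rwa [sub_add_cancel] at h

theorem allIn_mul_sub {x y : NormOne (a : K) (b : K)} (hx : AllIn 𝔫 (x.el - 1)) (hy : AllIn 𝔫 (y.el - 1)) :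
    AllIn 𝔫 ((x * y).el - 1) := by
  have e : (x * y).el - 1 = x.el * (y.el - 1) + (x.el - 1) := by
    have : (x * y).el = x.el * y.el := rfl
    rw [this]
    noncomm_ring
  rw [e]
  exact ((allIn_of_sub hx).mul hy).add hx

theorem allIn_one_sub : AllIn 𝔫 ((1 : NormOne (a : K) (b : K)).el - 1) := by
  have : (1 : NormOne (a : K) (b : K)).el = 1 := rfl
  rw [this, sub_self]
  exact ⟨In.zero, In.zero, In.zero, In.zero⟩

theorem bar_sub_one (x : ℍ[K,(a : K),(b : K)]) : bar x - 1 = bar (x - 1) := by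
  ext <;> simp [bar]

theorem allIn_inv_sub {x : NormOne (a : K) (b : K)} (hx : AllIn 𝔫 (x.el - 1)) : AllIn 𝔫 (x⁻¹.el - 1) := by
  have : x⁻¹.el = bar x.el := rfl
  rw [this, bar_sub_one]
  exact hx.bar

end sub

section levels
variable {W V : Type} [Fintype W] [DecidableEq W] [Fintype V] {K : Type} [Field K] [NumberField K]

/-- `𝔪 (γ - 1) ⊆ 𝔫 O`, where `O` is the order spanned by `1, i, j, k`. -/
def Lev {a b : K} (𝔫 𝔪 : Ideal (𝓞 K)) (γ : NormOne a b) : Prop := ∀ t ∈ 𝔪, AllIn 𝔫 ((t : K) • (γ.el - 1))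

/-- An ideal `𝔫 ≠ 0`, finitely many primes `𝔭 l` which do not divide `2ab𝔫`, and a subgroup `G` of
`D¹`, all of whose elements `γ` satisfy `𝔪 (γ - 1) ⊆ 𝔫 O` for some product `𝔪` of powers of the `𝔭 l`. -/
structure Level (S : Setting K W V) (ι : Type) [Fintype ι] where
  𝔫 : Ideal (𝓞 K)
  𝔭 : ι → Ideal (𝓞 K)
  G : Subgroup S.D1
  ne : 𝔫 ≠ ⊥
  prime : ∀ l, (𝔭 l).IsPrime ∧ 𝔭 l ≠ ⊥
  inj : Injective 𝔭
  away : ∀ l, (2 : 𝓞 K) ∉ 𝔭 l ∧ S.a ∉ 𝔭 l ∧ S.b ∉ 𝔭 l ∧ ¬ 𝔫 ≤ 𝔭 l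
  lev : ∀ γ ∈ G, ∃ m : ι → ℕ, Lev 𝔫 (∏ l, 𝔭 l ^ m l) γ

variable {S : Setting K W V} {ι : Type} [Fintype ι] (L : Level S ι)

/-- The arithmetic group `Γ` of all `γ ∈ G` with `γ - 1 ∈ 𝔫 O`. -/
def Level.Γ : Subgroup S.D1 where
  carrier := {γ | γ ∈ L.G ∧ AllIn L.𝔫 (γ.el - 1)}
  mul_mem' := by
    rintro x y ⟨hx, hx'⟩ ⟨hy, hy'⟩
    exact ⟨L.G.mul_mem hx hy, allIn_mul_sub hx' hy'⟩
  one_mem' := ⟨L.G.one_mem, allIn_one_sub⟩
  inv_mem' := by
    rintro x ⟨hx, hx'⟩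
    exact ⟨L.G.inv_mem hx, allIn_inv_sub hx'⟩

/-- `γ` is an element of `G` with `𝔪 (γ - 1) ⊆ 𝔫 O`, where `𝔪` is the product of the `𝔭 l ^ m l`. -/
def Level.Mem (m : ι → ℕ) (γ : S.D1) : Prop := γ ∈ L.G ∧ Lev L.𝔫 (∏ l, L.𝔭 l ^ m l) γ

/-- `R` is a system of representatives of `Γ \ G_𝔪`, where `G_𝔪` is given by `Level.Mem`. -/
def Level.Reps (m : ι → ℕ) (R : Finset S.D1) : Prop :=
  (∀ r ∈ R, L.Mem m r) ∧ ∀ g, L.Mem m g → ∃! r, r ∈ R ∧ g * r⁻¹ ∈ L.Γ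

/-- `f` is an eigenfunction, of eigenvalue `lam`, of the Hecke operator `T_𝔪`, which maps `f` to the
sum of `f(r z, r x)` over representatives `r` of `Γ \ G_𝔪`. -/
def Level.IsHecke (f : (W → UpperHalfPlane) → (V → ℍ[ℝ]) → ℂ) (m : ι → ℕ) (lam : ℝ) : Prop :=
  ∀ R, L.Reps m R → ∀ z x, ∑ r ∈ R, f (S.act r z) (S.rot r x) = (lam : ℂ) * f z x

/-- The eigenvalue `q^m ∑ q^{2θi}`, `-m ≤ i ≤ m`, of the Hecke operator `T_𝔪`, `𝔪 = 𝔭^m`, `q = N𝔭`, on
the unramified representation with Satake parameters `q^θ`, `q^{-θ}`. -/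
noncomputable def eigT (q : ℕ) (θ : ℝ) (m : ℕ) : ℝ := (q : ℝ) ^ m * ∑ i ∈ Finset.Icc (-(m : ℤ)) m, (q : ℝ) ^ (2 * θ * i)

/-- The `f j` are orthonormal automorphic forms for `Γ` of weight exactly `n`, with Laplace
eigenvalue at most `Λ w` in absolute value if `ϑ j w = 0`, and at most `1/4 - ϑ²`, `ϑ = ϑ j w`, otherwise;
`f j` is an eigenfunction of the Hecke operators at the `𝔭 l` with `θ j l ≠ 0`, where its Satake
parameters are `N𝔭^θ`, `N𝔭^{-θ}`, `θ = θ j l`. -/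
structure IsFamily (F : Set (W → UpperHalfPlane)) (n : V → ℕ) (Λ : W → ℝ) {J : Type} [DecidableEq J]
    (f : J → (W → UpperHalfPlane) → (V → ℍ[ℝ]) → ℂ) (ϑ : J → W → ℝ) (θ : J → ι → ℝ) : Prop where
  form : ∀ j, ∃ lam : W → ℝ, IsForm S L.Γ (f j) lam n ∧
    ∀ w, (ϑ j w = 0 ∧ |lam w| ≤ Λ w) ∨ (0 ≤ ϑ j w ∧ ϑ j w ≤ 1 / 2 ∧ lam w ≤ 1 / 4 - ϑ j w ^ 2)
  hecke : ∀ j, (∀ l, 0 ≤ θ j l) ∧ ∀ m : ι → ℕ, (∀ l, θ j l = 0 → m l = 0) →
    L.IsHecke (f j) m (∏ l, eigT (Ideal.absNorm (L.𝔭 l)) (θ j l) (m l))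
  orthonormal : ∀ i j, petersson F (f i) (f j) = if i = j then 1 else 0

/-- The product of the dimensions `∏ (n_v + 1)`. -/
noncomputable def dims (n : V → ℕ) : ℝ := ∏ v, ((n v : ℝ) + 1)

/-- `N𝔫³ ∏ (n_v + 1)`. -/
noncomputable def cond (𝔫 : Ideal (𝓞 K)) (n : V → ℕ) : ℝ := (Ideal.absNorm 𝔫 : ℝ) ^ 3 * dims n

/-- The norm of `𝔪²`, where `𝔪` is the product of the `𝔭 l ^ m l`. -/
noncomputable def Level.size (m : ι → ℕ) : ℝ := ∏ l, (Ideal.absNorm (L.𝔭 l) : ℝ) ^ (2 * m l)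

/-- `∏_w U_w^{2ϑ_w} ∏_l (N𝔭_l^{2m_l})^{2θ_l}`. -/
noncomputable def Level.gain (U : W → ℝ) (m : ι → ℕ) (ϑ : W → ℝ) (θ : ι → ℝ) : ℝ :=
  (∏ w, U w ^ (2 * ϑ w)) * ∏ l, ((Ideal.absNorm (L.𝔭 l) : ℝ) ^ (2 * m l)) ^ (2 * θ l)

/-- The bound `C (N𝔫³ ∏ (n_v + 1))^ε ∏_w Λ_w ∏ (n_v + 1)²`. -/
noncomputable def bound (𝔫 : Ideal (𝓞 K)) (C ε : ℝ) (n : V → ℕ) (Λ : W → ℝ) : ℝ :=
  C * cond 𝔫 n ^ ε * (∏ w, Λ w) * dims n ^ 2

end levels

section compact
variable {W V : Type} [Fintype W] [Fintype V] {K : Type} [Field K] [NumberField K] (S : Setting K W V)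

/-- the points `z` for which `γ z` is in a box, for some unit `γ` of reduced norm one -/
def Setting.Reg (M : ℝ) : Set (W → UpperHalfPlane) :=
  {z | ∃ γ : S.D1, AllIn ⊤ γ.el ∧ ∀ w, |(S.act γ z w).re| ≤ M ∧ 1 / M ≤ (S.act γ z w).im ∧ (S.act γ z w).im ≤ M}

/-- the quaternion with the given coordinates -/
def qt (p : Fin 4 → 𝓞 K) : ℍ[K, (S.a : K), (S.b : K)] := ⟨p 0, p 1, p 2, p 3⟩

/-- the reduced norm, as an integer -/
def nu (p : Fin 4 → 𝓞 K) : 𝓞 K := p 0 ^ 2 - S.a * p 1 ^ 2 - S.b * p 2 ^ 2 + S.a * S.b * p 3 ^ 2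

theorem coe_nu (p : Fin 4 → 𝓞 K) : (nu S p : K) = nrd (qt S p) := by
  simp only [nu, qt, nrd]
  push_cast
  rfl

theorem allIn_qt (p : Fin 4 → 𝓞 K) : AllIn (⊤ : Ideal (𝓞 K)) (qt S p) :=
  ⟨⟨p 0, Submodule.mem_top, rfl⟩, ⟨p 1, Submodule.mem_top, rfl⟩, ⟨p 2, Submodule.mem_top, rfl⟩,
    ⟨p 3, Submodule.mem_top, rfl⟩⟩

omit [NumberField K] in
theorem toM_smul {a b : K} (ψ : K →+* ℝ) (t : K) (x : ℍ[K,a,b]) : toM ψ (t • x) = ψ t • toM ψ x := by
  simp only [toM, QuaternionAlgebra.re_smul, QuaternionAlgebra.imI_smul, QuaternionAlgebra.imJ_smul,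
    QuaternionAlgebra.imK_smul, smul_eq_mul, map_mul]
  ext i j
  fin_cases i <;> fin_cases j <;> simp <;> ring

open Pool.Agent.H496.R6 in
theorem exists_elt [DecidableEq W] [DecidableEq V] [Nonempty V] : ∃ c : ℝ, 1 ≤ c ∧
    ∀ z : W → UpperHalfPlane, ∃ p : Fin 4 → 𝓞 K, p ≠ 0 ∧
      (∀ w i j, |(toM (S.ψ w) (qt S p) * GG (z w)) i j| ≤ c) ∧ ∀ v l, |S.φ v (p l : K)| ≤ c := by
  have hcard : Fintype.card (W ⊕ V) = Module.finrank ℚ K := by rw [Fintype.card_sum, S.card]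
  have hb0 : (S.b : K) ≠ 0 := by
    intro h
    obtain ⟨v₀⟩ := ‹Nonempty V›
    have := (S.neg v₀).2
    rw [h, map_zero] at this
    exact lt_irrefl _ this
  obtain ⟨c, hc, H⟩ := mink_field (Sum.elim S.ψ S.φ) S.inj hcard (|∏ w, (4 * √(S.ψ w S.a) ^ 2 * S.ψ w S.b)|)
    (abs_nonneg _)
  refine ⟨c, hc, fun z => ?_⟩
  obtain ⟨p, hp0, hp⟩ := H (Sum.elim (fun w => TT (√(S.ψ w S.a)) (S.ψ w S.b) (z w)) (fun _ => 1)) (by
    rintro (w | v)
    · rw [Sum.elim_inl, det_TT]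
      have h1 : √(S.ψ w S.a) ≠ 0 := (Real.sqrt_pos.2 (S.pos w)).ne'
      have h2 : S.ψ w S.b ≠ 0 := (map_ne_zero (S.ψ w)).2 hb0
      positivity
    · rw [Sum.elim_inr, Matrix.det_one]
      exact one_ne_zero) (by
    rw [Fintype.prod_sum_type]
    simp only [Sum.elim_inl, Sum.elim_inr, det_TT, Matrix.det_one, Finset.prod_const_one, mul_one]
    exact le_rfl)
  refine ⟨p, hp0, fun w => ?_, fun v l => ?_⟩
  · have h := fun k => hp (Sum.inl w) k
    simp only [Sum.elim_inl] at h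
    have h0 := h 0
    have h1 := h 1
    have h2 := h 2
    have h3 := h 3
    simp only [TT, Fin.sum_univ_four, Matrix.of_apply, Matrix.cons_val', Matrix.cons_val_zero, Matrix.cons_val_one,
      Matrix.cons_val_two, Matrix.cons_val_three, Matrix.cons_val_fin_one, Matrix.head_cons, Matrix.tail_cons,
      zero_mul, add_zero, zero_add] at h0 h1 h2 h3
    intro i j
    fin_cases i <;> fin_cases j
    · refine le_of_eq_of_le (congrArg abs ?_) h0
      simp [toM, GG, Matrix.mul_apply, Fin.sum_univ_two, qt]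
      ring
    · refine le_of_eq_of_le (congrArg abs ?_) h1
      simp [toM, GG, Matrix.mul_apply, Fin.sum_univ_two, qt]
      ring
    · refine le_of_eq_of_le (congrArg abs ?_) h2
      simp [toM, GG, Matrix.mul_apply, Fin.sum_univ_two, qt]
      ring
    · refine le_of_eq_of_le (congrArg abs ?_) h3
      simp [toM, GG, Matrix.mul_apply, Fin.sum_univ_two, qt]
      ring
  · have h := hp (Sum.inr v) l
    simp only [Sum.elim_inr, Matrix.one_apply, ite_mul, one_mul, zero_mul, Finset.sum_ite_eq, Finset.mem_univ,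
      if_true] at h
    exact h

theorem nu_ne [Nonempty V] {p : Fin 4 → 𝓞 K} (hp : p ≠ 0) : nu S p ≠ 0 := by
  intro h
  apply hp
  obtain ⟨v⟩ := ‹Nonempty V›
  obtain ⟨ha, hb⟩ := S.neg v
  have h1 : S.φ v (nu S p : K) = 0 := by
    rw [h]
    simp
  rw [coe_nu] at h1
  simp only [nrd, qt, map_add, map_sub, map_mul, map_pow] at h1
  set A := S.φ v S.a
  set B := S.φ v S.b
  set x0 := S.φ v (p 0 : K) with hx0
  set x1 := S.φ v (p 1 : K) with hx1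
  set x2 := S.φ v (p 2 : K) with hx2
  set x3 := S.φ v (p 3 : K) with hx3
  have hAB : 0 < A * B := mul_pos_of_neg_of_neg ha hb
  have t0 : 0 ≤ x0 ^ 2 := sq_nonneg _
  have t1 : 0 ≤ -A * x1 ^ 2 := mul_nonneg (by linarith) (sq_nonneg _)
  have t2 : 0 ≤ -B * x2 ^ 2 := mul_nonneg (by linarith) (sq_nonneg _)
  have t3 : 0 ≤ A * B * x3 ^ 2 := mul_nonneg hAB.le (sq_nonneg _)
  have e0 : x0 = 0 := pow_eq_zero_iff two_ne_zero |>.1 (by linarith)
  have e1 : x1 = 0 := by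
    have : -A * x1 ^ 2 = 0 := by linarith
    rcases mul_eq_zero.1 this with h | h
    · linarith
    · exact pow_eq_zero_iff two_ne_zero |>.1 h
  have e2 : x2 = 0 := by
    have : -B * x2 ^ 2 = 0 := by linarith
    rcases mul_eq_zero.1 this with h | h
    · linarith
    · exact pow_eq_zero_iff two_ne_zero |>.1 h
  have e3 : x3 = 0 := by
    have : A * B * x3 ^ 2 = 0 := by linarith
    rcases mul_eq_zero.1 this with h | h
    · linarith
    · exact pow_eq_zero_iff two_ne_zero |>.1 h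
  have hz : ∀ x : 𝓞 K, S.φ v (x : K) = 0 → x = 0 := by
    intro x hx
    have := (map_eq_zero (S.φ v)).1 hx
    exact NumberField.RingOfIntegers.ext this
  funext l
  fin_cases l
  · exact hz _ e0
  · exact hz _ e1
  · exact hz _ e2
  · exact hz _ e3

open Pool.Agent.H496.R6 in
theorem nu_split {c : ℝ} (z : W → UpperHalfPlane) (p : Fin 4 → 𝓞 K) (w : W)
    (h : ∀ i j, |(toM (S.ψ w) (qt S p) * GG (z w)) i j| ≤ c) : |S.ψ w (nu S p : K)| ≤ 2 * c ^ 2 := by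
  rw [coe_nu, ← det_toM (S.pos w)]
  have h1 : (toM (S.ψ w) (qt S p)).det = (toM (S.ψ w) (qt S p) * GG (z w)).det := by
    rw [Matrix.det_mul]
    have : (GG (z w)).det = 1 := by
      have hq0 : √(z w).im ≠ 0 := (Real.sqrt_pos.2 (z w).im_pos).ne'
      rw [GG, Matrix.det_fin_two_of]
      field_simp
      ring
    rw [this, mul_one]
  rw [h1, Matrix.det_fin_two]
  have hc0 : 0 ≤ c := (abs_nonneg _).trans (h 0 0)
  refine (abs_sub _ _).trans ?_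
  rw [abs_mul, abs_mul]
  have e1 := mul_le_mul (h 0 0) (h 1 1) (abs_nonneg _) hc0
  have e2 := mul_le_mul (h 0 1) (h 1 0) (abs_nonneg _) hc0
  nlinarith

theorem nu_ram {c : ℝ} (p : Fin 4 → 𝓞 K) (v : V) (h : ∀ l, |S.φ v (p l : K)| ≤ c) :
    |S.φ v (nu S p : K)| ≤ c ^ 2 * (1 + |S.φ v S.a| + |S.φ v S.b| + |S.φ v S.a| * |S.φ v S.b|) := by
  rw [coe_nu]
  simp only [nrd, qt, map_add, map_sub, map_mul, map_pow]
  have hs : ∀ l, S.φ v (p l : K) ^ 2 ≤ c ^ 2 := fun l => by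
    rw [← sq_abs]
    exact pow_le_pow_left₀ (abs_nonneg _) (h l) 2
  have h0 := hs 0
  have h1 := hs 1
  have h2 := hs 2
  have h3 := hs 3
  have k0 : |S.φ v (p 0 : K) ^ 2| ≤ c ^ 2 := by rwa [abs_of_nonneg (sq_nonneg _)]
  have k1 : |S.φ v S.a * S.φ v (p 1 : K) ^ 2| ≤ |S.φ v S.a| * c ^ 2 := by
    rw [abs_mul, abs_of_nonneg (sq_nonneg (S.φ v (p 1 : K)))]
    gcongr
  have k2 : |S.φ v S.b * S.φ v (p 2 : K) ^ 2| ≤ |S.φ v S.b| * c ^ 2 := by
    rw [abs_mul, abs_of_nonneg (sq_nonneg (S.φ v (p 2 : K)))]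
    gcongr
  have k3 : |S.φ v S.a * S.φ v S.b * S.φ v (p 3 : K) ^ 2| ≤ |S.φ v S.a| * |S.φ v S.b| * c ^ 2 := by
    rw [abs_mul, abs_mul, abs_of_nonneg (sq_nonneg (S.φ v (p 3 : K)))]
    gcongr
  refine (abs_add_le _ _).trans ?_
  have i1 := abs_sub (S.φ v (p 0 : K) ^ 2 - S.φ v S.a * S.φ v (p 1 : K) ^ 2) (S.φ v S.b * S.φ v (p 2 : K) ^ 2)
  have i2 := abs_sub (S.φ v (p 0 : K) ^ 2) (S.φ v S.a * S.φ v (p 1 : K) ^ 2)
  linarith

theorem reg_mono {M M' : ℝ} (hM : 1 ≤ M) (h : M ≤ M') {z : W → UpperHalfPlane} (hz : z ∈ S.Reg M) : z ∈ S.Reg M' := by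
  obtain ⟨γ, h1, h2⟩ := hz
  refine ⟨γ, h1, fun w => ?_⟩
  obtain ⟨a1, a2, a3⟩ := h2 w
  refine ⟨a1.trans h, le_trans ?_ a2, a3.trans h⟩
  exact one_div_le_one_div_of_le (by linarith) h

/-- `γ = x'⁻¹ x` -/
theorem exists_unit {p p' u : Fin 4 → 𝓞 K} {ν : 𝓞 K} (hν : ν ≠ 0) (h : nu S p = ν) (h' : nu S p' = ν)
    (hu : ∀ l, p l - p' l = ν * u l) : ∃ γ : S.D1, AllIn (⊤ : Ideal (𝓞 K)) γ.el ∧
      (ν : K) • γ.el = bar (qt S p') * qt S p := by
  have hνK : (ν : K) ≠ 0 := by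
    intro h0
    exact hν (NumberField.RingOfIntegers.ext h0)
  have hp : ∀ l, (p l : K) = p' l + ν * u l := by
    intro l
    have h1 : p l = p' l + ν * u l := by linear_combination hu l
    rw [h1]
    push_cast
    rfl
  have hn' : nrd (qt S p') = (ν : K) := by rw [← coe_nu, h']
  have hn : nrd (qt S p) = (ν : K) := by rw [← coe_nu, h]
  have key : (ν : K) • (1 + bar (qt S p') * qt S u) = bar (qt S p') * qt S p := by
    have e1 : bar (qt S p') * qt S p = bar (qt S p') * qt S p' + (ν : K) • (bar (qt S p') * qt S u) := by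
      simp only [qt, bar, QuaternionAlgebra.mk_mul_mk]
      ext
      · simp only [QuaternionAlgebra.re_add, QuaternionAlgebra.re_smul, smul_eq_mul, hp]
        ring
      · simp only [QuaternionAlgebra.imI_add, QuaternionAlgebra.imI_smul, smul_eq_mul, hp]
        ring
      · simp only [QuaternionAlgebra.imJ_add, QuaternionAlgebra.imJ_smul, smul_eq_mul, hp]
        ring
      · simp only [QuaternionAlgebra.imK_add, QuaternionAlgebra.imK_smul, smul_eq_mul, hp]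
        ring
    have e2 : bar (qt S p') * qt S p' = (ν : K) • 1 := by
      rw [← hn']
      simp only [qt, bar, QuaternionAlgebra.mk_mul_mk, nrd]
      ext
      · simp only [QuaternionAlgebra.re_smul, QuaternionAlgebra.re_one, smul_eq_mul]
        ring
      · simp only [QuaternionAlgebra.imI_smul, QuaternionAlgebra.imI_one, smul_eq_mul]
        ring
      · simp only [QuaternionAlgebra.imJ_smul, QuaternionAlgebra.imJ_one, smul_eq_mul]
        ring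
      · simp only [QuaternionAlgebra.imK_smul, QuaternionAlgebra.imK_one, smul_eq_mul]
        ring
    rw [e1, e2, smul_add]
  have hnrd : nrd (1 + bar (qt S p') * qt S u) = 1 := by
    have e1 : nrd ((ν : K) • (1 + bar (qt S p') * qt S u)) = (ν : K) ^ 2 * nrd (1 + bar (qt S p') * qt S u) := by
      simp only [nrd, QuaternionAlgebra.re_smul, QuaternionAlgebra.imI_smul, QuaternionAlgebra.imJ_smul,
        QuaternionAlgebra.imK_smul, smul_eq_mul]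
      ring
    rw [key, nrd_mul, nrd_bar, hn', hn] at e1
    have e2 : (ν : K) ^ 2 * (nrd (1 + bar (qt S p') * qt S u) - 1) = 0 := by
      rw [mul_sub, ← e1]
      ring
    have e3 := (mul_eq_zero.1 e2).resolve_left (pow_ne_zero 2 hνK)
    linear_combination e3
  refine ⟨⟨1 + bar (qt S p') * qt S u, hnrd⟩, ?_, key⟩
  have h1 : AllIn (⊤ : Ideal (𝓞 K)) (bar (qt S p') * qt S u) := (allIn_qt S p').bar.mul (allIn_qt S u)
  obtain ⟨⟨t0, -, e0⟩, ⟨t1, -, e1⟩, ⟨t2, -, e2⟩, ⟨t3, -, e3⟩⟩ := h1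
  refine ⟨⟨1 + t0, Submodule.mem_top, ?_⟩, ⟨t1, Submodule.mem_top, ?_⟩, ⟨t2, Submodule.mem_top, ?_⟩,
    ⟨t3, Submodule.mem_top, ?_⟩⟩
  · rw [QuaternionAlgebra.re_add, QuaternionAlgebra.re_one, ← e0]
    push_cast
    rfl
  · rw [QuaternionAlgebra.imI_add, QuaternionAlgebra.imI_one, ← e1, zero_add]
  · rw [QuaternionAlgebra.imJ_add, QuaternionAlgebra.imJ_one, ← e2, zero_add]
  · rw [QuaternionAlgebra.imK_add, QuaternionAlgebra.imK_one, ← e3, zero_add]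

open Pool.Agent.H496.R6 in
/-- every orbit of the unit group meets a fixed box -/
theorem reg_univ [DecidableEq W] [Nonempty V] : ∃ M : ℝ, 1 ≤ M ∧ ∀ z, z ∈ S.Reg M := by
  classical
  rcases isEmpty_or_nonempty W with hW | ⟨⟨w₀⟩⟩
  · refine ⟨1, le_rfl, fun z => ⟨1, ?_, fun w => hW.elim w⟩⟩
    exact ⟨⟨1, Submodule.mem_top, rfl⟩, ⟨0, Submodule.mem_top, rfl⟩, ⟨0, Submodule.mem_top, rfl⟩,
      ⟨0, Submodule.mem_top, rfl⟩⟩
  obtain ⟨c, hc, H⟩ := exists_elt S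
  choose p hp0 hpW hpV using H
  set B : ℝ := 2 * c ^ 2 + ∑ v, c ^ 2 * (1 + |S.φ v S.a| + |S.φ v S.b| + |S.φ v S.a| * |S.φ v S.b|) with hB
  have hB1 : ∀ v, c ^ 2 * (1 + |S.φ v S.a| + |S.φ v S.b| + |S.φ v S.a| * |S.φ v S.b|) ≤ B := by
    intro v
    have h1 := Finset.single_le_sum (f := fun v => c ^ 2 * (1 + |S.φ v S.a| + |S.φ v S.b| + |S.φ v S.a| * |S.φ v S.b|))
      (fun v _ => by positivity) (Finset.mem_univ v)
    have h2 : 0 ≤ 2 * c ^ 2 := by positivity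
    rw [hB]
    linarith
  have hB2 : 2 * c ^ 2 ≤ B := by
    rw [hB]
    have : 0 ≤ ∑ v, c ^ 2 * (1 + |S.φ v S.a| + |S.φ v S.b| + |S.φ v S.a| * |S.φ v S.b|) :=
      Finset.sum_nonneg fun v _ => by positivity
    linarith
  have hB0 : 0 < B := lt_of_lt_of_le (by positivity) hB2
  have hfin := finite_box S.ψ S.φ S.inj S.card w₀ hB0
  set Fs : Finset (𝓞 K) := hfin.toFinset.filter (fun x => x ≠ 0) with hFs
  set m0 : 𝓞 K := ∏ ν ∈ Fs, ν with hm0
  have hm00 : m0 ≠ 0 := Finset.prod_ne_zero_iff.2 fun ν hν => (Finset.mem_filter.1 hν).2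
  have hfq : Finite (𝓞 K ⧸ Ideal.span {m0}) := by
    refine Ideal.finiteQuotientOfFreeOfNeBot _ ?_
    rwa [Ne, Ideal.span_singleton_eq_bot]
  have hmem : ∀ z, nu S (p z) ∈ Fs := by
    intro z
    rw [hFs, Finset.mem_filter, Set.Finite.mem_toFinset]
    refine ⟨⟨fun w => ?_, fun v => ?_⟩, nu_ne S (hp0 z)⟩
    · exact (nu_split S z (p z) w (hpW z w)).trans hB2
    · exact (nu_ram S (p z) v (hpV z v)).trans (hB1 v)
  set key : (W → UpperHalfPlane) → 𝓞 K × (Fin 4 → 𝓞 K ⧸ Ideal.span {m0}) := fun z =>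
    (nu S (p z), fun l => Ideal.Quotient.mk _ (p z l)) with hkeydef
  have hkey : (Set.range key).Finite := by
    refine (Fs.finite_toSet.prod (Set.finite_univ (α := Fin 4 → 𝓞 K ⧸ Ideal.span {m0}))).subset ?_
    rintro _ ⟨z, rfl⟩
    exact ⟨hmem z, mem_univ _⟩
  have hM : ∀ κ, ∃ M : ℝ, 1 ≤ M ∧ ∀ z, key z = κ → z ∈ S.Reg M := by
    intro κ
    by_cases hex : ∃ z', key z' = κ
    swap
    · exact ⟨1, le_rfl, fun z hz => absurd ⟨z, hz⟩ hex⟩
    obtain ⟨z', hz'⟩ := hex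
    set ν : 𝓞 K := nu S (p z') with hν
    have hν0 : ν ≠ 0 := nu_ne S (hp0 z')
    have hνm : ν ∣ m0 := Finset.dvd_prod_of_mem _ (hmem z')
    set A : W → Matrix (Fin 2) (Fin 2) ℝ := fun w => toM (S.ψ w) (bar (qt S (p z'))) with hA
    set R : ℝ := 1 + ∑ w, ∑ i, ∑ k, |A w i k| * c / |S.ψ w ν| with hR
    have hterm : ∀ w i k, 0 ≤ |A w i k| * c / |S.ψ w ν| := fun w i k => by positivity
    have hR1 : 1 ≤ R := by
      have : 0 ≤ ∑ w, ∑ i, ∑ k, |A w i k| * c / |S.ψ w ν| :=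
        Finset.sum_nonneg fun w _ => Finset.sum_nonneg fun i _ => Finset.sum_nonneg fun k _ => hterm w i k
      rw [hR]
      linarith
    have hRw : ∀ w i, ∑ k, |A w i k| * c / |S.ψ w ν| ≤ R := by
      intro w i
      have h1 : ∑ k, |A w i k| * c / |S.ψ w ν| ≤ ∑ i, ∑ k, |A w i k| * c / |S.ψ w ν| :=
        Finset.single_le_sum (f := fun i => ∑ k, |A w i k| * c / |S.ψ w ν|)
          (fun i _ => Finset.sum_nonneg fun k _ => hterm w i k) (Finset.mem_univ i)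
      have h2 : ∑ i, ∑ k, |A w i k| * c / |S.ψ w ν| ≤ ∑ w, ∑ i, ∑ k, |A w i k| * c / |S.ψ w ν| :=
        Finset.single_le_sum (f := fun w => ∑ i, ∑ k, |A w i k| * c / |S.ψ w ν|)
          (fun w _ => Finset.sum_nonneg fun i _ => Finset.sum_nonneg fun k _ => hterm w i k) (Finset.mem_univ w)
      rw [hR]
      linarith
    refine ⟨2 * R ^ 2, by nlinarith, fun z hz => ?_⟩
    rw [← hz'] at hz
    have hn : nu S (p z) = ν := congrArg Prod.fst hz
    have hq : ∀ l, ∃ u, p z l - p z' l = ν * u := by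
      intro l
      have h1 : Ideal.Quotient.mk (Ideal.span {m0}) (p z l) = Ideal.Quotient.mk _ (p z' l) :=
        congrFun (congrArg Prod.snd hz) l
      rw [Ideal.Quotient.eq, Ideal.mem_span_singleton] at h1
      exact hνm.trans h1
    choose u hu using hq
    obtain ⟨γ, hγ, hγ2⟩ := exists_unit S hν0 hn rfl hu
    refine ⟨γ, hγ, fun w => ?_⟩
    have hψν : S.ψ w ν ≠ 0 := by
      rw [Ne, map_eq_zero]
      intro h0
      exact hν0 (NumberField.RingOfIntegers.ext h0)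
    refine box_of_entries (toSL (S.ψ w) (S.pos w) γ) (z w) hR1 fun i j => ?_
    have e1 : S.ψ w ν • toM (S.ψ w) γ.el = A w * toM (S.ψ w) (qt S (p z)) := by
      rw [hA]
      simp only
      rw [← toM_mul (S.pos w), ← hγ2, toM_smul]
    have e2 : (toM (S.ψ w) γ.el * GG (z w)) i j =
        ∑ k, A w i k * (toM (S.ψ w) (qt S (p z)) * GG (z w)) k j / S.ψ w ν := by
      have e3 : S.ψ w ν • (toM (S.ψ w) γ.el * GG (z w)) = A w * (toM (S.ψ w) (qt S (p z)) * GG (z w)) := by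
        rw [← Matrix.smul_mul, e1, Matrix.mul_assoc]
      have e4 : S.ψ w ν * (toM (S.ψ w) γ.el * GG (z w)) i j =
          ∑ k, A w i k * (toM (S.ψ w) (qt S (p z)) * GG (z w)) k j := by
        have e5 := congrFun (congrFun e3 i) j
        rw [Matrix.smul_apply, smul_eq_mul] at e5
        rw [e5]
        exact Matrix.mul_apply
      rw [← Finset.sum_div, ← e4, mul_div_cancel_left₀ _ hψν]
    show |(toM (S.ψ w) γ.el * GG (z w)) i j| ≤ R
    rw [e2]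
    refine (Finset.abs_sum_le_sum_abs _ _).trans (le_trans (Finset.sum_le_sum fun k _ => ?_) (hRw w i))
    rw [abs_div, abs_mul]
    have := hpW z w k j
    gcongr
  choose Mf hMf1 hMf using hM
  obtain ⟨M, hM⟩ := (hkey.image Mf).bddAbove
  refine ⟨max M 1, le_max_right _ _, fun z => ?_⟩
  exact reg_mono S (hMf1 _) (le_trans (hM (mem_image_of_mem _ (mem_range_self z))) (le_max_left _ _)) (hMf _ z rfl)

end compact

section count
variable {W V : Type} [Fintype W] [Fintype V] {K : Type} [Field K] [NumberField K] (S : Setting K W V)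

/-- the homomorphism at a split place -/
noncomputable def Setting.hom (Γ : Subgroup S.D1) (w : W) : Γ →* SL(2, ℝ) where
  toFun γ := toSL (S.ψ w) (S.pos w) γ.1
  map_one' := Subtype.ext (toM_one (S.ψ w))
  map_mul' x y := Subtype.ext (toM_mul (S.pos w) x.1.el y.1.el)

/-- the homomorphism at a ramified place -/
noncomputable def Setting.homH (Γ : Subgroup S.D1) (v : V) : Γ →* ℍ[ℝ] where
  toFun γ := toH (S.φ v) γ.1.el
  map_one' := toH_one (S.φ v)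
  map_mul' x y := toH_mul (S.neg v).1 (S.neg v).2 x.1.el y.1.el

theorem norm_homH (Γ : Subgroup S.D1) (v : V) (γ : Γ) : ‖S.homH Γ v γ‖ = 1 :=
  norm_toH (S.neg v).1 (S.neg v).2 (γ : NormOne (S.a : K) (S.b : K))

theorem toSL_mul (w : W) (x y : S.D1) : toSL (S.ψ w) (S.pos w) (x * y) =
    toSL (S.ψ w) (S.pos w) x * toSL (S.ψ w) (S.pos w) y := Subtype.ext (toM_mul (S.pos w) x.el y.el)

theorem exists_H [Nonempty V] : ∃ H : ℝ, 1 ≤ H ∧ (∀ v, 1 ≤ H * √(-S.φ v S.a)) ∧ (∀ v, 1 ≤ H * √(-S.φ v S.b)) ∧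
    (∀ w, 1 + √(S.ψ w S.a) ≤ H) ∧ (∀ w, 1 ≤ H * √(S.ψ w S.a)) ∧ ∀ w, 1 ≤ H * |S.ψ w S.b| := by
  obtain ⟨v₀⟩ := ‹Nonempty V›
  have hb0 : (S.b : K) ≠ 0 := by
    intro h
    have := (S.neg v₀).2
    rw [h, map_zero] at this
    exact lt_irrefl _ this
  have key : ∀ {ι : Type} [Fintype ι] (g : ι → ℝ), (∀ i, 0 < g i) → ∃ H : ℝ, 1 ≤ H ∧ ∀ H' ≥ H, ∀ i, 1 ≤ H' * g i := by
    intro ι _ g hg
    refine ⟨1 + ∑ i, 1 / g i, ?_, ?_⟩
    · have : 0 ≤ ∑ i, 1 / g i := Finset.sum_nonneg fun i _ => by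
        have := hg i
        positivity
      linarith
    · intro H' hH' i
      have h1 : 1 / g i ≤ ∑ i, 1 / g i := Finset.single_le_sum (f := fun i => 1 / g i) (fun i _ => by
        have := hg i
        positivity) (Finset.mem_univ i)
      have h2 : 1 / g i ≤ H' := by linarith
      rw [div_le_iff₀ (hg i)] at h2
      exact h2
  obtain ⟨H1, h1, k1⟩ := key (fun v => √(-S.φ v S.a)) fun v => Real.sqrt_pos.2 (by linarith [(S.neg v).1])
  obtain ⟨H2, h2, k2⟩ := key (fun v => √(-S.φ v S.b)) fun v => Real.sqrt_pos.2 (by linarith [(S.neg v).2])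
  obtain ⟨H3, h3, k3⟩ := key (fun w => √(S.ψ w S.a)) fun w => Real.sqrt_pos.2 (S.pos w)
  obtain ⟨H4, h4, k4⟩ := key (fun w => |S.ψ w S.b|) fun w => abs_pos.2 ((map_ne_zero (S.ψ w)).2 hb0)
  obtain ⟨H5, h5, k5⟩ : ∃ H : ℝ, 0 ≤ H ∧ ∀ w, 1 + √(S.ψ w S.a) ≤ H := by
    refine ⟨∑ w, (1 + √(S.ψ w S.a)), Finset.sum_nonneg fun w _ => by positivity, fun w => ?_⟩
    exact Finset.single_le_sum (f := fun w => 1 + √(S.ψ w S.a)) (fun w _ => by positivity) (Finset.mem_univ w)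
  refine ⟨H1 + H2 + H3 + H4 + H5, by linarith, k1 _ ?_, k2 _ ?_, fun w => ?_, k3 _ ?_, k4 _ ?_⟩
  · show H1 ≤ _
    linarith
  · show H2 ≤ _
    linarith
  · have := k5 w
    linarith
  · show H3 ≤ _
    linarith
  · show H4 ≤ _
    linarith

theorem coord_bound {X0 X1 X2 X3 α β E H : ℝ} (hH : 1 ≤ H) (hE0 : 0 ≤ E) (hα0 : 0 ≤ α) (hHα : 1 ≤ H * α)
    (hHb : 1 ≤ H * |β|) (e00 : |X0 + α * X1| ≤ E) (e11 : |X0 - α * X1| ≤ E) (e01 : |β * (X2 + α * X3)| ≤ E)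
    (e10 : |X2 - α * X3| ≤ E) : |X0| ≤ H ^ 2 * E ∧ |X1| ≤ H ^ 2 * E ∧ |X2| ≤ H ^ 2 * E ∧ |X3| ≤ H ^ 2 * E := by
  have hH0 : 0 ≤ H := by linarith
  have f00 := abs_le.1 e00
  have f11 := abs_le.1 e11
  have f10 := abs_le.1 e10
  have g01 : |X2 + α * X3| ≤ H * E := by
    rw [abs_mul] at e01
    calc |X2 + α * X3| = 1 * |X2 + α * X3| := (one_mul _).symm
      _ ≤ (H * |β|) * |X2 + α * X3| := mul_le_mul_of_nonneg_right hHb (abs_nonneg _)
      _ = H * (|β| * |X2 + α * X3|) := by ring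
      _ ≤ H * E := by gcongr
  have f01 := abs_le.1 g01
  have hEH : E ≤ H * E := le_mul_of_one_le_left hE0 hH
  have hHE0 : 0 ≤ H * E := mul_nonneg hH0 hE0
  have hHH : H * E ≤ H ^ 2 * E := by
    calc H * E ≤ H * (H * E) := le_mul_of_one_le_left hHE0 hH
      _ = _ := by ring
  have hαX : ∀ X : ℝ, ∀ B : ℝ, |α * X| ≤ B → |X| ≤ H * B := by
    intro X B h
    rw [abs_mul, abs_of_nonneg hα0] at h
    calc |X| = 1 * |X| := (one_mul _).symm
      _ ≤ (H * α) * |X| := mul_le_mul_of_nonneg_right hHα (abs_nonneg _)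
      _ = H * (α * |X|) := by ring
      _ ≤ H * B := by gcongr
  refine ⟨?_, ?_, ?_, ?_⟩
  · refine le_trans ?_ hHH
    refine le_trans ?_ hEH
    rw [abs_le]
    constructor <;> linarith
  · refine le_trans (hαX X1 E ?_) hHH
    rw [abs_le]
    constructor <;> linarith
  · refine le_trans ?_ hHH
    rw [abs_le]
    constructor <;> linarith
  · refine le_trans (hαX X3 (H * E) ?_) (le_of_eq (by ring))
    rw [abs_le]
    constructor <;> linarith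

end count

section fracs
variable {K : Type} [Field K] {𝔫 𝔪 : Ideal (𝓞 K)} {a b : 𝓞 K}

theorem In.mulI {x y : K} (hx : In 𝔪 x) (hy : In 𝔫 y) : In (𝔪 * 𝔫) (x * y) := by
  obtain ⟨s, hs, rfl⟩ := hx
  obtain ⟨t, ht, rfl⟩ := hy
  exact ⟨s * t, Ideal.mul_mem_mul hs ht, by push_cast; rfl⟩

theorem ext_mul {𝔦 𝔮 𝔠 : Ideal (𝓞 K)} {y : K} (h : ∀ s ∈ 𝔦, In 𝔠 ((s : K) * y)) {t : 𝓞 K} (ht : t ∈ 𝔦 * 𝔮) :
    In (𝔠 * 𝔮) ((t : K) * y) := by
  refine Submodule.mul_induction_on ht (fun s hs q hq => ?_) (fun x x' hx hx' => ?_)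
  · obtain ⟨u, hu, e⟩ := h s hs
    refine ⟨u * q, Ideal.mul_mem_mul hu hq, ?_⟩
    have e1 : ((s * q : 𝓞 K) : K) = (s : K) * q := rfl
    have e2 : ((u * q : 𝓞 K) : K) = (u : K) * q := rfl
    rw [e1, e2, e]
    ring
  · have e1 : ((x + x' : 𝓞 K) : K) = (x : K) + x' := rfl
    rw [e1, add_mul]
    exact hx.add hx'

theorem lev_conj {γ₀ γ : NormOne (a : K) (b : K)} (h0 : AllIn (⊤ : Ideal (𝓞 K)) γ₀.el) (h : Lev 𝔫 𝔪 γ) :
    Lev 𝔫 𝔪 (γ₀ * γ * γ₀⁻¹) := by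
  intro s hs
  have h1 : γ₀.el * bar γ₀.el = 1 := congrArg NormOne.el (mul_inv_cancel γ₀)
  have e : (s : K) • ((γ₀ * γ * γ₀⁻¹).el - 1) = γ₀.el * ((s : K) • (γ.el - 1)) * bar γ₀.el := by
    have e2 : (γ₀ * γ * γ₀⁻¹).el = γ₀.el * γ.el * bar γ₀.el := rfl
    rw [e2, mul_smul_comm, smul_mul_assoc, mul_sub, sub_mul, mul_one, h1]
  rw [e]
  exact (h0.mul (h s hs)).mul' h0.bar

theorem two_re {γ : NormOne (a : K) (b : K)} (hco : IsCoprime 𝔪 𝔫) (h : Lev 𝔫 𝔪 γ) :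
    ∀ s ∈ 𝔪, In (𝔫 * 𝔫) ((s : K) * (2 * (γ.el.re - 1))) := by
  intro s hs
  obtain ⟨u, hu, v, hv, huv⟩ := Ideal.isCoprime_iff_exists.1 hco
  obtain ⟨s0, s1, s2, s3⟩ := h s hs
  obtain ⟨u0, u1, u2, u3⟩ := h u hu
  change In 𝔫 ((s : K) * (γ.el.re - 1)) at s0
  change In 𝔫 ((s : K) * (γ.el.imI - 0)) at s1
  change In 𝔫 ((s : K) * (γ.el.imJ - 0)) at s2
  change In 𝔫 ((s : K) * (γ.el.imK - 0)) at s3
  change In 𝔫 ((u : K) * (γ.el.re - 1)) at u0
  change In 𝔫 ((u : K) * (γ.el.imI - 0)) at u1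
  change In 𝔫 ((u : K) * (γ.el.imJ - 0)) at u2
  change In 𝔫 ((u : K) * (γ.el.imK - 0)) at u3
  have hn : γ.el.re ^ 2 - (a : K) * γ.el.imI ^ 2 - (b : K) * γ.el.imJ ^ 2 + (a : K) * (b : K) * γ.el.imK ^ 2 = 1 :=
    γ.nrd_el
  have huvK : (u : K) + (v : K) = 1 := by
    have := congrArg (fun t : 𝓞 K => (t : K)) huv
    push_cast at this
    exact this
  have ha := In.coe (K := K) a
  have hb := In.coe (K := K) b
  have e : (s : K) * (2 * (γ.el.re - 1)) =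
      -(((s : K) * (γ.el.re - 1)) * ((u : K) * (γ.el.re - 1)) -
        (a : K) * (((s : K) * (γ.el.imI - 0)) * ((u : K) * (γ.el.imI - 0))) -
        (b : K) * (((s : K) * (γ.el.imJ - 0)) * ((u : K) * (γ.el.imJ - 0))) +
        ((a : K) * (b : K)) * (((s : K) * (γ.el.imK - 0)) * ((u : K) * (γ.el.imK - 0)))) +
      (((2 : 𝓞 K) : K) * ((v : K) * ((s : K) * (γ.el.re - 1)))) := by
    have h2 : ((2 : 𝓞 K) : K) = 2 := rfl
    rw [h2]
    linear_combination ((s : K) * u) * hn - 2 * (s : K) * (γ.el.re - 1) * huvK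
  rw [e]
  refine In.add (In.neg ?_) ?_
  · refine In.add (In.sub (In.sub (In.mulI s0 u0) (In.mul ha (In.mulI s1 u1))) (In.mul hb (In.mulI s2 u2))) ?_
    exact In.mul (In.mul ha hb) (In.mulI s3 u3)
  · exact In.mul (In.coe _) (In.mulI ⟨v, hv, rfl⟩ s0)

end fracs

section cop
variable {W V : Type} [Fintype W] [Fintype V] {K : Type} [Field K] [NumberField K] {S : Setting K W V}
  {ι : Type} [Fintype ι] (L : Level S ι)

theorem Level.coprime (m : ι → ℕ) : IsCoprime (∏ l, L.𝔭 l ^ m l) L.𝔫 := by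
  refine IsCoprime.prod_left fun l _ => IsCoprime.pow_left ?_
  have hmax : (L.𝔭 l).IsMaximal := (L.prime l).1.isMaximal (L.prime l).2
  rw [Ideal.isCoprime_iff_sup_eq]
  exact hmax.out.2 _ (left_lt_sup.2 (L.away l).2.2.2)

theorem Level.ideal_ne (m : ι → ℕ) : ∏ l, L.𝔭 l ^ m l ≠ ⊥ :=
  Finset.prod_ne_zero_iff.2 fun l _ => pow_ne_zero _ (L.prime l).2

end cop

section cnt
variable {W V : Type} [Fintype W] [Fintype V] {K : Type} [Field K] [NumberField K] (S : Setting K W V)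

open Pool.Agent.H496.R6 Pool.Agent.H496.R4 Pool.Agent.H496.R7 in
theorem count_z [DecidableEq W] [DecidableEq V] [Nonempty W] [Nonempty V] {M : ℝ} (hM : 1 ≤ M) {δ : ℝ} (hδ : 0 < δ) :
    ∃ Z0 : ℝ, 0 < Z0 ∧ ∀ (ι : Type) [Fintype ι] (L : Level S ι) (p : W → Prop) [DecidablePred p],
      ∀ z ∈ S.Reg M, ∀ U : W → ℝ, (∀ w, 1 ≤ U w) → ∀ (i : ι → ℕ) (M2 : ℝ),
      ∏ l, (Ideal.absNorm (L.𝔭 l) : ℝ) ^ i l ≤ M2 →
      CountHyp2 (fun w : WP p => S.hom L.G w) (fun w : WQ p => S.hom L.G w) (S.homH L.G) (fun w => z w) (fun w => z w)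
        (fun γ => Lev L.𝔫 (∏ l, L.𝔭 l ^ i l) (γ : S.D1)) (fun w : WP p => U w)
        (Z0 * (4 ^ Fintype.card W * (∏ w : WP p, U w) * M2) ^ δ)
        ((∏ l, (Ideal.absNorm (L.𝔭 l) : ℝ) ^ i l) / Ideal.absNorm L.𝔫)
        ((∏ l, (Ideal.absNorm (L.𝔭 l) : ℝ) ^ i l) / (Ideal.absNorm L.𝔫 : ℝ) ^ 2) := by
  obtain ⟨H, hH, Ha, Hb, Hw, Hw2, Hb2⟩ := exists_H S
  obtain ⟨v₀⟩ := ‹Nonempty V›
  obtain ⟨w₀⟩ := ‹Nonempty W›
  obtain ⟨C, hC, hcnt⟩ := count_arith2 (Module.finrank ℚ K) hδ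
  set d := Module.finrank ℚ K with hd
  set Q0 : ℝ := (16 * M ^ 3 * H ^ 2) ^ d with hQ0
  have hM3 : 1 ≤ M ^ 3 := one_le_pow₀ hM
  have hH2 : 1 ≤ H ^ 2 := one_le_pow₀ hH
  have hbase : 1 ≤ 16 * M ^ 3 * H ^ 2 := by
    have : 1 ≤ M ^ 3 * H ^ 2 := one_le_mul_of_one_le_of_one_le hM3 hH2
    linarith
  have hQ1 : 1 ≤ Q0 := one_le_pow₀ hbase
  have h4d : (1 : ℝ) ≤ 4 ^ d := one_le_pow₀ (by norm_num)
  have h2Hd : (1 : ℝ) ≤ (2 * H) ^ d := one_le_pow₀ (by linarith)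
  refine ⟨(2 ^ d * (2 * (4 ^ d * Q0))) * ((2 * ((2 * H) ^ d * Q0)) * (C * (2 * H * Q0) ^ δ + 1)), by positivity, ?_⟩
  intro ι _ L p _ z hz U hU i M2 hM2 T hT1 hT4 s hs0 hs1 A hA
  classical
  obtain ⟨γ₀, hγ₀, hbox⟩ := hz
  have h𝔫 := L.ne
  have hN : (0 : ℝ) < Ideal.absNorm L.𝔫 := by
    have : Ideal.absNorm L.𝔫 ≠ 0 := by rwa [Ne, Ideal.absNorm_eq_zero_iff]
    positivity
  -- the ideals
  set 𝔦 : Ideal (𝓞 K) := ∏ l, L.𝔭 l ^ i l with h𝔦
  have h𝔦0 : 𝔦 ≠ ⊥ := L.ideal_ne i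
  set t : ℕ := Ideal.absNorm 𝔦 with ht
  have htp : 0 < t := Nat.pos_of_ne_zero (by rwa [ht, Ne, Ideal.absNorm_eq_zero_iff])
  have ht0 : (0 : ℝ) < t := by exact_mod_cast htp
  have ht1 : (1 : ℝ) ≤ t := by exact_mod_cast htp
  have htNI : ∏ l, (Ideal.absNorm (L.𝔭 l) : ℝ) ^ i l = t := by
    rw [ht, h𝔦, map_prod]
    push_cast
    refine Finset.prod_congr rfl fun l _ => ?_
    rw [map_pow]
    push_cast
    rfl
  obtain ⟨𝔮, h𝔮⟩ := Ideal.dvd_iff_le.2 (Ideal.span_singleton_absNorm_le 𝔦)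
  rw [← ht] at h𝔮
  have htK : (t : K) ≠ 0 := by exact_mod_cast htp.ne'
  have h𝔮0 : 𝔮 ≠ ⊥ := by
    rintro rfl
    rw [Ideal.mul_bot, Ideal.span_singleton_eq_bot] at h𝔮
    exact htp.ne' (by exact_mod_cast h𝔮)
  have htm : (t : 𝓞 K) ∈ 𝔦 * 𝔮 := by
    rw [← h𝔮]
    exact Ideal.mem_span_singleton_self _
  have hNq : (t : ℝ) * Ideal.absNorm 𝔮 = (t : ℝ) ^ d := by
    have h1 := congrArg Ideal.absNorm h𝔮
    rw [Ideal.absNorm_span_natCast, map_mul, ← ht, NumberField.RingOfIntegers.rank] at h1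
    exact_mod_cast h1.symm
  have hNq0 : (0 : ℝ) < Ideal.absNorm 𝔮 := by
    have : Ideal.absNorm 𝔮 ≠ 0 := by rwa [Ne, Ideal.absNorm_eq_zero_iff]
    positivity
  have hco : IsCoprime 𝔦 L.𝔫 := L.coprime i
  have hcoe : ((t : 𝓞 K) : K) = (t : K) := by push_cast; rfl
  -- the coordinates
  have hex : ∀ γ : L.G, Lev L.𝔫 𝔦 (γ : S.D1) → ∃ q : 𝓞 K × 𝓞 K × 𝓞 K × 𝓞 K, ((q.1 : K) = t * (γ₀ * γ * γ₀⁻¹).el.re ∧
      (q.2.1 : K) = t * (γ₀ * γ * γ₀⁻¹).el.imI ∧ (q.2.2.1 : K) = t * (γ₀ * γ * γ₀⁻¹).el.imJ ∧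
      (q.2.2.2 : K) = t * (γ₀ * γ * γ₀⁻¹).el.imK) ∧
      (2 * (q.1 - (t : 𝓞 K)) ∈ L.𝔫 * L.𝔫 * 𝔮 ∧ q.2.1 ∈ L.𝔫 * 𝔮) := by
    intro γ hγ
    have hc := lev_conj hγ₀ hγ
    set γ' := γ₀ * (γ : S.D1) * γ₀⁻¹ with hγ'
    have htt : ((t : 𝓞 K) : 𝓞 K) ∈ 𝔦 := Ideal.absNorm_mem 𝔦
    obtain ⟨⟨t0, ht0, e0⟩, ⟨t1, ht1, e1⟩, ⟨t2, ht2, e2⟩, ⟨t3, ht3, e3⟩⟩ := hc _ htt
    change (t0 : K) = ((t : 𝓞 K) : K) * (γ'.el.re - 1) at e0
    change (t1 : K) = ((t : 𝓞 K) : K) * (γ'.el.imI - 0) at e1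
    change (t2 : K) = ((t : 𝓞 K) : K) * (γ'.el.imJ - 0) at e2
    change (t3 : K) = ((t : 𝓞 K) : K) * (γ'.el.imK - 0) at e3
    rw [hcoe] at e0 e1 e2 e3
    refine ⟨(t0 + t, t1, t2, t3), ⟨?_, ?_, ?_, ?_⟩, ?_, ?_⟩
    · show ((t0 + (t : 𝓞 K) : 𝓞 K) : K) = _
      have h1 : ((t0 + (t : 𝓞 K) : 𝓞 K) : K) = (t0 : K) + t := by push_cast; rfl
      rw [h1, e0]
      ring
    · show (t1 : K) = _
      rw [e1]
      ring
    · show (t2 : K) = _
      rw [e2]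
      ring
    · show (t3 : K) = _
      rw [e3]
      ring
    · obtain ⟨u, hu, hu2⟩ := ext_mul (two_re hco hc) htm
      have : 2 * (t0 + (t : 𝓞 K) - (t : 𝓞 K)) = u := by
        apply NumberField.RingOfIntegers.ext
        rw [hu2, hcoe]
        have h1 : ((2 * (t0 + (t : 𝓞 K) - (t : 𝓞 K)) : 𝓞 K) : K) = 2 * (t0 : K) := by
          rw [add_sub_cancel_right]
          rfl
        rw [h1, e0]
        ring
      rw [this]
      exact hu
    · have h1 : ∀ s ∈ 𝔦, In L.𝔫 ((s : K) * (γ'.el.imI - 0)) := fun s hs => (hc s hs).2.1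
      obtain ⟨u, hu, hu2⟩ := ext_mul h1 htm
      have : t1 = u := by
        apply NumberField.RingOfIntegers.ext
        rw [hu2, hcoe, e1]
      show t1 ∈ _
      rw [this]
      exact hu
  have hex' : ∀ γ : L.G, ∃ q : 𝓞 K × 𝓞 K × 𝓞 K × 𝓞 K, Lev L.𝔫 𝔦 (γ : S.D1) → ((q.1 : K) = t * (γ₀ * γ * γ₀⁻¹).el.re ∧
      (q.2.1 : K) = t * (γ₀ * γ * γ₀⁻¹).el.imI ∧ (q.2.2.1 : K) = t * (γ₀ * γ * γ₀⁻¹).el.imJ ∧
      (q.2.2.2 : K) = t * (γ₀ * γ * γ₀⁻¹).el.imK) ∧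
      (2 * (q.1 - (t : 𝓞 K)) ∈ L.𝔫 * L.𝔫 * 𝔮 ∧ q.2.1 ∈ L.𝔫 * 𝔮) := by
    intro γ
    by_cases h : Lev L.𝔫 𝔦 (γ : S.D1)
    · obtain ⟨q, hq⟩ := hex γ h
      exact ⟨q, fun _ => hq⟩
    · exact ⟨0, fun h' => absurd h' h⟩
  choose q hq using hex'
  have hqinj : Set.InjOn q A := by
    intro γ hγ γ' hγ' h
    obtain ⟨⟨a0, a1, a2, a3⟩, -⟩ := hq γ (hA γ hγ).1
    obtain ⟨⟨b0, b1, b2, b3⟩, -⟩ := hq γ' (hA γ' hγ').1
    have h1 : γ₀ * (γ : S.D1) * γ₀⁻¹ = γ₀ * (γ' : S.D1) * γ₀⁻¹ := by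
      apply NormOne.ext
      rw [h] at a0 a1 a2 a3
      ext
      · exact mul_left_cancel₀ htK (by rw [← a0, ← b0])
      · exact mul_left_cancel₀ htK (by rw [← a1, ← b1])
      · exact mul_left_cancel₀ htK (by rw [← a2, ← b2])
      · exact mul_left_cancel₀ htK (by rw [← a3, ← b3])
    have h2 : (γ : S.D1) = γ' := by
      have := mul_right_cancel h1
      exact mul_left_cancel this
    exact Subtype.ext h2
  -- the displacement of the conjugate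
  have hdisp : ∀ (γ : L.G) (w : W), Real.cosh (dist (S.act γ₀ z w)
      (toSL (S.ψ w) (S.pos w) (γ₀ * (γ : S.D1) * γ₀⁻¹) • S.act γ₀ z w) / 2) =
      Real.cosh (dist (z w) (S.hom L.G w γ • z w) / 2) := by
    intro γ w
    have h1 : toSL (S.ψ w) (S.pos w) (γ₀ * (γ : S.D1) * γ₀⁻¹) • S.act γ₀ z w =
        toSL (S.ψ w) (S.pos w) γ₀ • toSL (S.ψ w) (S.pos w) (γ : S.D1) • z w := by
      have h2 : S.act γ₀ z w = toSL (S.ψ w) (S.pos w) γ₀ • z w := rfl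
      rw [h2, ← mul_smul, ← mul_smul, ← toSL_mul, ← toSL_mul, inv_mul_cancel_right]
    rw [h1]
    have h2 : S.act γ₀ z w = toSL (S.ψ w) (S.pos w) γ₀ • z w := rfl
    rw [h2, dist_smul]
    rfl
  set c0 : ℝ := 8 * M ^ 3 * H ^ 2 with hc0
  have hc01 : 1 ≤ c0 := by
    have : 1 ≤ M ^ 3 * H ^ 2 := one_le_mul_of_one_le_of_one_le hM3 hH2
    rw [hc0]
    linarith
  set Tw : W → ℝ := fun w => if h : p w then T ⟨w, h⟩ else 2 with hTw
  have hTw1 : ∀ w, 1 ≤ Tw w := by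
    intro w
    rw [hTw]
    simp only
    split_ifs with h
    · exact hT1 _
    · norm_num
  set Aw : W → ℝ := fun w => c0 * Tw w with hAw
  have hAw1 : ∀ w, 1 ≤ Aw w := fun w => one_le_mul_of_one_le_of_one_le hc01 (hTw1 w)
  have key := hcnt K rfl W V S.ψ S.φ S.inj S.card w₀ v₀ S.a S.b S.pos S.neg (L.𝔫 * 𝔮) (L.𝔫 * L.𝔫 * 𝔮)
    (mul_ne_zero h𝔫 h𝔮0) (mul_ne_zero (mul_ne_zero h𝔫 h𝔫) h𝔮0) t htp Aw hAw1 s (fun v => (hs0 v).le)
    H hH Ha Hb Hw (A.image q) ?_ ?_ ?_ ?_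
  · rw [Finset.card_image_of_injOn hqinj] at key
    set PT : ℝ := ∏ w : WP p, T w with hPT
    have hPT1 : 1 ≤ PT := by
      calc (1 : ℝ) = ∏ _w : WP p, (1 : ℝ) := by simp
        _ ≤ _ := Finset.prod_le_prod (fun _ _ => zero_le_one) fun w _ => hT1 w
    have hPT0 : 0 < PT := by linarith
    have hPA : ∏ w, Aw w ≤ Q0 * PT := by
      have h1 : ∏ w, Aw w = c0 ^ Fintype.card W * ∏ w, Tw w := by
        rw [← Finset.card_univ, ← Finset.prod_const, ← Finset.prod_mul_distrib]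
      have h2 : ∏ w, Tw w = PT * 2 ^ Fintype.card (WQ p) := by
        rw [← Fintype.prod_subtype_mul_prod_subtype p Tw]
        congr 1
        · refine Finset.prod_congr rfl fun w _ => ?_
          rw [hTw]
          simp only
          rw [dif_pos w.2]
        · rw [← Finset.card_univ, ← Finset.prod_const]
          refine Finset.prod_congr rfl fun w _ => ?_
          rw [hTw]
          simp only
          rw [dif_neg w.2]
      have h3 : Fintype.card (WQ p) ≤ Fintype.card W := Fintype.card_subtype_le _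
      rw [h1, h2]
      calc c0 ^ Fintype.card W * (PT * 2 ^ Fintype.card (WQ p)) ≤
          c0 ^ Fintype.card W * (PT * 2 ^ Fintype.card W) := by
            have : (2 : ℝ) ^ Fintype.card (WQ p) ≤ 2 ^ Fintype.card W := pow_le_pow_right₀ (by norm_num) h3
            gcongr
        _ = (c0 * 2) ^ Fintype.card W * PT := by
            rw [mul_pow c0 2]
            ring
        _ = (16 * M ^ 3 * H ^ 2) ^ Fintype.card W * PT := by
            have hX : c0 * 2 = 16 * M ^ 3 * H ^ 2 := by rw [hc0]; ring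
            rw [hX]
        _ ≤ Q0 * PT := by
            refine mul_le_mul_of_nonneg_right ?_ hPT0.le
            exact pow_le_pow_right₀ hbase (by rw [hd, ← S.card]; omega)
    have hPA0 : 0 ≤ ∏ w, Aw w := Finset.prod_nonneg fun w _ => by linarith [hAw1 w]
    set P2 : ℝ := ∏ v, s v ^ 2 with hP2
    set P1 : ℝ := ∏ v, s v with hP1
    have hP20 : 0 ≤ P2 := Finset.prod_nonneg fun v _ => sq_nonneg _
    have hP10 : 0 ≤ P1 := Finset.prod_nonneg fun v _ => (hs0 v).le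
    set Nn : ℝ := (Ideal.absNorm L.𝔫 : ℝ) with hNn
    rw [htNI] at hM2 ⊢
    have hN1 : ((Ideal.absNorm (L.𝔫 * 𝔮) : ℕ) : ℝ) = Nn * Ideal.absNorm 𝔮 := by
      rw [map_mul]
      push_cast
      rfl
    have hN2 : ((Ideal.absNorm (L.𝔫 * L.𝔫 * 𝔮) : ℕ) : ℝ) = Nn ^ 2 * Ideal.absNorm 𝔮 := by
      rw [map_mul, map_mul]
      push_cast
      ring
    rw [hN1, hN2] at key
    set Nq : ℝ := (Ideal.absNorm 𝔮 : ℝ) with hNqd
    have f1 : ∀ x y : ℝ, (x * t) ^ d * y / (Nn * Nq) = x ^ d * y * (t / Nn) := by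
      intro x y
      rw [mul_pow, ← hNq]
      field_simp
    have f2 : ∀ x y : ℝ, (x * t) ^ d * y / (Nn ^ 2 * Nq) = x ^ d * y * (t / Nn ^ 2) := by
      intro x y
      rw [mul_pow, ← hNq]
      field_simp
    have b1 : 2 ^ Fintype.card V * (2 + (4 * t) ^ d * (∏ w, Aw w) * P2 / (Nn ^ 2 * Nq)) ≤
        (2 ^ d * (2 * (4 ^ d * Q0))) * (1 + PT * P2 * (t / Nn ^ 2)) := by
      have c1 : (2 : ℝ) ^ Fintype.card V ≤ 2 ^ d := pow_le_pow_right₀ (by norm_num) (by rw [hd, ← S.card]; omega)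
      have c2 : (4 * t) ^ d * (∏ w, Aw w) * P2 / (Nn ^ 2 * Nq) ≤ (4 ^ d * Q0) * (PT * P2 * (t / Nn ^ 2)) := by
        rw [mul_assoc ((4 * (t : ℝ)) ^ d), f2]
        calc 4 ^ d * ((∏ w, Aw w) * P2) * (t / Nn ^ 2) ≤ 4 ^ d * ((Q0 * PT) * P2) * (t / Nn ^ 2) := by gcongr
          _ = _ := by ring
      have c3 : 1 ≤ 4 ^ d * Q0 := one_le_mul_of_one_le_of_one_le h4d hQ1
      have c4 : 0 ≤ PT * P2 * (t / Nn ^ 2) := by positivity
      have c5 : 2 + (4 * t) ^ d * (∏ w, Aw w) * P2 / (Nn ^ 2 * Nq) ≤ (2 * (4 ^ d * Q0)) * (1 + PT * P2 * (t / Nn ^ 2)) := by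
        nlinarith
      calc 2 ^ Fintype.card V * (2 + (4 * t) ^ d * (∏ w, Aw w) * P2 / (Nn ^ 2 * Nq)) ≤
          2 ^ d * ((2 * (4 ^ d * Q0)) * (1 + PT * P2 * (t / Nn ^ 2))) := by gcongr
        _ = _ := by ring
    have b2 : 2 + (2 * H * t) ^ d * (∏ w, Aw w) * P1 / (Nn * Nq) ≤ (2 * ((2 * H) ^ d * Q0)) * (1 + PT * P1 * (t / Nn)) := by
      have c2 : (2 * H * t) ^ d * (∏ w, Aw w) * P1 / (Nn * Nq) ≤ ((2 * H) ^ d * Q0) * (PT * P1 * (t / Nn)) := by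
        rw [mul_assoc ((2 * H * (t : ℝ)) ^ d), f1]
        calc (2 * H) ^ d * ((∏ w, Aw w) * P1) * (t / Nn) ≤ (2 * H) ^ d * ((Q0 * PT) * P1) * (t / Nn) := by gcongr
          _ = _ := by ring
      have c3 : 1 ≤ (2 * H) ^ d * Q0 := one_le_mul_of_one_le_of_one_le h2Hd hQ1
      have c4 : 0 ≤ PT * P1 * (t / Nn) := by positivity
      nlinarith
    have hM20 : 0 < M2 := lt_of_lt_of_le ht0 hM2
    have hPU0 : 0 ≤ ∏ w : WP p, U w := Finset.prod_nonneg fun w _ => by linarith [hU w]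
    have hPTU : PT ≤ 4 ^ Fintype.card W * ∏ w : WP p, U w := by
      have h1 : PT ≤ ∏ w : WP p, (4 * U w) := Finset.prod_le_prod (fun w _ => by linarith [hT1 w]) fun w _ => hT4 w
      rw [Finset.prod_mul_distrib, Finset.prod_const, Finset.card_univ] at h1
      refine h1.trans (mul_le_mul_of_nonneg_right ?_ hPU0)
      exact pow_le_pow_right₀ (by norm_num) (Fintype.card_subtype_le _)
    set BB : ℝ := 4 ^ Fintype.card W * (∏ w : WP p, U w) * M2 with hBB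
    have hPTB : PT * t ≤ BB := mul_le_mul hPTU hM2 ht0.le (le_trans hPT0.le hPTU)
    have hB1 : 1 ≤ BB := le_trans (one_le_mul_of_one_le_of_one_le hPT1 ht1) hPTB
    have b3 : C * (2 * H * t * ∏ w, Aw w) ^ δ + 1 ≤ (C * (2 * H * Q0) ^ δ + 1) * BB ^ δ := by
      have c1 : (2 * H * t * ∏ w, Aw w) ^ δ ≤ (2 * H * Q0) ^ δ * BB ^ δ := by
        rw [← Real.mul_rpow (by positivity) (by linarith)]
        refine Real.rpow_le_rpow (by positivity) ?_ hδ.le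
        calc 2 * H * t * ∏ w, Aw w ≤ 2 * H * t * (Q0 * PT) := by gcongr
          _ = 2 * H * Q0 * (PT * t) := by ring
          _ ≤ _ := by gcongr
      have c3 : 1 ≤ BB ^ δ := Real.one_le_rpow hB1 hδ.le
      have c6 := mul_le_mul_of_nonneg_left c1 hC.le
      calc C * (2 * H * t * ∏ w, Aw w) ^ δ + 1 ≤ C * ((2 * H * Q0) ^ δ * BB ^ δ) + 1 * BB ^ δ := by linarith
        _ = _ := by ring
    refine key.trans ?_
    have n1 : 0 ≤ 2 + (2 * H * t) ^ d * (∏ w, Aw w) * P1 / (Nn * Nq) := by positivity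
    have n2 : 0 ≤ C * (2 * H * t * ∏ w, Aw w) ^ δ + 1 := by
      have : 0 ≤ (2 * H * t * ∏ w, Aw w) ^ δ := Real.rpow_nonneg (by positivity) _
      positivity
    calc (2 ^ Fintype.card V * (2 + (4 * t) ^ d * (∏ w, Aw w) * P2 / (Nn ^ 2 * Nq))) *
          ((2 + (2 * H * t) ^ d * (∏ w, Aw w) * P1 / (Nn * Nq)) * (C * (2 * H * t * ∏ w, Aw w) ^ δ + 1)) ≤
        ((2 ^ d * (2 * (4 ^ d * Q0))) * (1 + PT * P2 * (t / Nn ^ 2))) *
          (((2 * ((2 * H) ^ d * Q0)) * (1 + PT * P1 * (t / Nn))) * ((C * (2 * H * Q0) ^ δ + 1) * BB ^ δ)) := by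
          refine mul_le_mul b1 ?_ (mul_nonneg n1 n2) (by positivity)
          exact mul_le_mul b2 b3 n2 (by positivity)
      _ = _ := by ring
  · intro x hx
    obtain ⟨γ, hγ, rfl⟩ := Finset.mem_image.1 hx
    obtain ⟨⟨a0, a1, a2, a3⟩, -⟩ := hq γ (hA γ hγ).1
    apply NumberField.RingOfIntegers.ext
    have e1 : (((q γ).1 ^ 2 - S.a * (q γ).2.1 ^ 2 - S.b * (q γ).2.2.1 ^ 2 + S.a * S.b * (q γ).2.2.2 ^ 2 : 𝓞 K) : K) =
        ((q γ).1 : K) ^ 2 - (S.a : K) * ((q γ).2.1 : K) ^ 2 - (S.b : K) * ((q γ).2.2.1 : K) ^ 2 +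
          (S.a : K) * (S.b : K) * ((q γ).2.2.2 : K) ^ 2 := by
      push_cast
      rfl
    have e2 : (((t : 𝓞 K) ^ 2 : 𝓞 K) : K) = (t : K) ^ 2 := by
      push_cast
      rfl
    rw [a0, a1, a2, a3] at e1
    rw [e1, e2]
    have e3 : (γ₀ * (γ : S.D1) * γ₀⁻¹).el.re ^ 2 - (S.a : K) * (γ₀ * (γ : S.D1) * γ₀⁻¹).el.imI ^ 2 -
        (S.b : K) * (γ₀ * (γ : S.D1) * γ₀⁻¹).el.imJ ^ 2 +
        (S.a : K) * (S.b : K) * (γ₀ * (γ : S.D1) * γ₀⁻¹).el.imK ^ 2 = 1 := (γ₀ * (γ : S.D1) * γ₀⁻¹).nrd_el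
    linear_combination (t : K) ^ 2 * e3
  · intro x hx
    obtain ⟨γ, hγ, rfl⟩ := Finset.mem_image.1 hx
    exact (hq γ (hA γ hγ).1).2
  · intro x hx w
    obtain ⟨γ, hγ, rfl⟩ := Finset.mem_image.1 hx
    obtain ⟨⟨a0, a1, a2, a3⟩, -⟩ := hq γ (hA γ hγ).1
    obtain ⟨-, hcP, hcQ, -⟩ := hA γ hγ
    obtain ⟨x1, y1, y2⟩ := hbox w
    have hent := fun i j => entries_le (toSL (S.ψ w) (S.pos w) (γ₀ * (γ : S.D1) * γ₀⁻¹)) (S.act γ₀ z w) x1 y1 y2 hM i j
    rw [hdisp γ w] at hent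
    set c := Real.cosh (dist (z w) (S.hom L.G w γ • z w) / 2) with hc
    have hcle : c ≤ Tw w := by
      rw [hTw]
      simp only
      split_ifs with h
      · exact hcP ⟨w, h⟩
      · exact hcQ ⟨w, h⟩
    have hc1 : 1 ≤ c := Real.one_le_cosh _
    set E : ℝ := 8 * M ^ 3 * c with hE
    have hE0 : 0 ≤ E := by positivity
    have hEA : H ^ 2 * E ≤ Aw w := by
      calc H ^ 2 * E = c0 * c := by rw [hE, hc0]; ring
        _ ≤ _ := by
          rw [hAw]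
          simp only
          gcongr
    set X0 := S.ψ w (γ₀ * (γ : S.D1) * γ₀⁻¹).el.re with hX0
    set X1 := S.ψ w (γ₀ * (γ : S.D1) * γ₀⁻¹).el.imI with hX1
    set X2 := S.ψ w (γ₀ * (γ : S.D1) * γ₀⁻¹).el.imJ with hX2
    set X3 := S.ψ w (γ₀ * (γ : S.D1) * γ₀⁻¹).el.imK with hX3
    set α := √(S.ψ w S.a) with hα
    have e00 : |X0 + α * X1| ≤ E := hent 0 0
    have e11 : |X0 - α * X1| ≤ E := hent 1 1
    have e01 : |S.ψ w S.b * (X2 + α * X3)| ≤ E := hent 0 1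
    have e10 : |X2 - α * X3| ≤ E := hent 1 0
    obtain ⟨f0, f1, f2, f3⟩ := coord_bound hH hE0 (Real.sqrt_nonneg _) (Hw2 w) (Hb2 w) e00 e11 e01 e10
    have hmul : ∀ x : K, |S.ψ w ((t : K) * x)| = t * |S.ψ w x| := by
      intro x
      rw [map_mul, map_natCast, abs_mul, abs_of_pos ht0]
    rw [a0, a1, a2, a3, hmul, hmul, hmul, hmul]
    exact ⟨mul_le_mul_of_nonneg_left (f0.trans hEA) ht0.le, mul_le_mul_of_nonneg_left (f1.trans hEA) ht0.le,
      mul_le_mul_of_nonneg_left (f2.trans hEA) ht0.le, mul_le_mul_of_nonneg_left (f3.trans hEA) ht0.le⟩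
  · intro x hx v
    obtain ⟨γ, hγ, rfl⟩ := Finset.mem_image.1 hx
    obtain ⟨⟨a0, -, -, -⟩, -⟩ := hq γ (hA γ hγ).1
    have h1 := (hA γ hγ).2.2.2 v
    have h2 := (sn_sq (norm_homH S L.G v γ)).1
    have h3 : S.φ v ((q γ).1 : K) = t * (S.homH L.G v γ).re := by
      rw [a0, map_mul, map_natCast, re_conj]
      rfl
    rw [h3]
    have h4 := sn_nonneg (S.homH L.G v γ)
    have h5 : sn (S.homH L.G v γ) ^ 2 ≤ s v ^ 2 := by gcongr
    rw [h2] at h5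
    calc (t : ℝ) ^ 2 - (t * (S.homH L.G v γ).re) ^ 2 = (t : ℝ) ^ 2 * (1 - (S.homH L.G v γ).re ^ 2) := by ring
      _ ≤ _ := by gcongr

end cnt

section lev
variable {K : Type} [Field K] {𝔫 𝔪 : Ideal (𝓞 K)} {a b : 𝓞 K}

open Pool.Agent.H496.R7

theorem smul_one_in {t : 𝓞 K} (ht : t ∈ 𝔫) : AllIn 𝔫 ((t : K) • (1 : ℍ[K,(a : K),(b : K)])) := by
  refine ⟨⟨t, ht, ?_⟩, ⟨0, 𝔫.zero_mem, ?_⟩, ⟨0, 𝔫.zero_mem, ?_⟩, ⟨0, 𝔫.zero_mem, ?_⟩⟩
  · rw [QuaternionAlgebra.re_smul, QuaternionAlgebra.re_one, smul_eq_mul, mul_one]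
  · simp
  · simp
  · simp

theorem le_den {γ : NormOne (a : K) (b : K)} (h : Lev 𝔫 𝔪 γ) : 𝔪 ≤ den γ.el := by
  intro t ht
  have h1 : AllIn (⊤ : Ideal (𝓞 K)) ((t : K) • (γ.el - 1)) := (h t ht).top
  have h2 : AllIn (⊤ : Ideal (𝓞 K)) ((t : K) • (1 : ℍ[K,(a : K),(b : K)])) := smul_one_in Submodule.mem_top
  have h3 := h1.add h2
  rw [smul_sub, sub_add_cancel] at h3
  exact h3

theorem lev_inv {γ : NormOne (a : K) (b : K)} (h : Lev 𝔫 𝔪 γ) : Lev 𝔫 𝔪 γ⁻¹ := by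
  intro t ht
  have e : (t : K) • (γ⁻¹.el - 1) = kbar ((t : K) • (γ.el - 1)) := by
    rw [kbar_smul]
    have : γ⁻¹.el - 1 = kbar (γ.el - 1) := bar_sub_one γ.el
    rw [this]
  rw [e]
  exact KIn.bar (h t ht)

theorem lev_mul {g h : NormOne (a : K) (b : K)} (hg : Lev 𝔫 𝔪 g) (hh : AllIn 𝔫 (h.el - 1)) : Lev 𝔫 𝔪 (g * h) := by
  intro t ht
  have e : (t : K) • ((g * h).el - 1) = ((t : K) • g.el) * (h.el - 1) + (t : K) • (g.el - 1) := by
    have : (g * h).el = g.el * h.el := rfl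
    rw [this, smul_mul_assoc, ← smul_add]
    congr 1
    noncomm_ring
  rw [e]
  exact (AllIn.mul (le_den hg ht) hh).add (hg t ht)

theorem lev_of_den {γ : NormOne (a : K) (b : K)} (hco : IsCoprime 𝔪 𝔫) (h : Lev 𝔫 𝔪 γ) : Lev 𝔫 (den γ.el) γ := by
  intro t ht
  obtain ⟨u, hu, v, hv, huv⟩ := Ideal.isCoprime_iff_exists.1 hco
  have huvK : (u : K) + (v : K) = 1 := by
    have := congrArg (fun t : 𝓞 K => (t : K)) huv
    push_cast at this
    exact this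
  have e : (t : K) • (γ.el - 1) = (t : K) • ((u : K) • (γ.el - 1)) + (v : K) • ((t : K) • (γ.el - 1)) := by
    rw [smul_comm (v : K), ← smul_add, ← add_smul, huvK, one_smul]
  have h1 : KIn (⊤ : Ideal (𝓞 K)) ((t : K) • (γ.el - 1)) := by
    rw [smul_sub]
    exact KIn.sub ht (smul_one_in Submodule.mem_top)
  rw [e]
  exact KIn.add (KIn.smul (KI.coe t) (h u hu)) (KIn.smul' ⟨v, hv, rfl⟩ h1)

theorem den_mul {g δ : NormOne (a : K) (b : K)} (h1 : 𝔪 ≤ den g.el) (h2 : 𝔪 ≤ den (δ * g).el) : 𝔪 * 𝔪 ≤ den δ.el := by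
  rw [Ideal.mul_le]
  intro s hs t ht
  have h3 : KIn ⊤ ((s : K) • (δ * g).el) := h2 hs
  have h4 : KIn ⊤ ((t : K) • kbar g.el) := by
    rw [← kbar_smul]
    exact KIn.bar (h1 ht)
  have h5 := KIn.mul h3 h4
  have e : (s : K) • (δ * g).el * (t : K) • kbar g.el = ((s * t : 𝓞 K) : K) • δ.el := by
    have e1 : (δ * g).el * kbar g.el = δ.el := congrArg NormOne.el (mul_inv_cancel_right δ g)
    have e2 : ((s * t : 𝓞 K) : K) = (s : K) * t := rfl
    rw [smul_mul_assoc, mul_smul_comm, e1, smul_smul, e2]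
  rw [e] at h5
  exact h5

end lev

section ball
variable {W V : Type} [Fintype W] [Fintype V] {K : Type} [Field K] [NumberField K] {S : Setting K W V}
  {ι : Type} [Fintype ι] (L : Level S ι)

open Pool.Agent.H496.R7

theorem Level.lev_den {γ : S.D1} (hγ : γ ∈ L.G) : Lev L.𝔫 (den γ.el) γ := by
  obtain ⟨m, hm⟩ := L.lev γ hγ
  exact lev_of_den (L.coprime m) hm

/-- the subgroup of `G` -/
def Level.H : Subgroup L.G := L.Γ.subgroupOf L.G

theorem Level.mem_H {h : L.G} : h ∈ L.H ↔ AllIn L.𝔫 ((h : S.D1).el - 1) := by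
  rw [Level.H, Subgroup.mem_subgroupOf]
  exact ⟨fun h => h.2, fun hh => ⟨h.2, hh⟩⟩

theorem Level.lev_out {m : ι → ℕ} (g : L.G) (h : Lev L.𝔫 (∏ l, L.𝔭 l ^ m l) (g : S.D1)) :
    Lev L.𝔫 (∏ l, L.𝔭 l ^ m l) ((Quotient.out (g : L.G ⧸ L.H) : L.G) : S.D1) := by
  obtain ⟨h', hh'⟩ := QuotientGroup.mk_out_eq_mul L.H g
  have e : (Quotient.out (g : L.G ⧸ L.H) : L.G) = g * h' := hh'
  rw [e]
  exact lev_mul h (L.mem_H.1 h'.2)

theorem Level.lev_of_out {m : ι → ℕ} (g : L.G)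
    (h : Lev L.𝔫 (∏ l, L.𝔭 l ^ m l) ((Quotient.out (g : L.G ⧸ L.H) : L.G) : S.D1)) :
    Lev L.𝔫 (∏ l, L.𝔭 l ^ m l) (g : S.D1) := by
  obtain ⟨h', hh'⟩ := QuotientGroup.mk_out_eq_mul L.H g
  have e : (Quotient.out (g : L.G ⧸ L.H) : L.G) = g * h' := hh'
  rw [e] at h
  have h1 := lev_mul h (L.mem_H.1 (L.H.inv_mem h'.2))
  have e2 : ((g * h' : L.G) : S.D1) * (((h' : L.G)⁻¹ : L.G) : S.D1) = g := by
    rw [← Subgroup.coe_mul, mul_inv_cancel_right]
  rwa [e2] at h1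

theorem Level.card_fiber [DecidableEq ι] (m i : ι → ℕ) (δ : L.G) (hi : den (δ : S.D1).el = ∏ l, L.𝔭 l ^ i l)
    (T : Finset (L.G ⧸ L.H)) (hT : ∀ y ∈ T, Lev L.𝔫 (∏ l, L.𝔭 l ^ m l) ((Quotient.out y : L.G) : S.D1) ∧
      Lev L.𝔫 (∏ l, L.𝔭 l ^ m l) ((Quotient.out (δ • y) : L.G) : S.D1)) :
    T.card ≤ ∏ l, ∑ k ∈ Finset.range (2 * m l + 1 - i l), Ideal.absNorm (L.𝔭 l) ^ k := by
  obtain ⟨key, hkey⟩ := ball_key (fun l => (L.prime l).1) (fun l => (L.prime l).2) L.inj (fun l => (L.away l).1)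
    (fun l => (L.away l).2.1) (fun l => (L.away l).2.2.1) m (κ := T) (fun y => ((Quotient.out (y : L.G ⧸ L.H) : L.G) : S.D1).el)
    (fun y => ((Quotient.out (y : L.G ⧸ L.H) : L.G) : S.D1).nrd_el) (fun y => le_den (hT y y.2).1)
    (δ := (δ : S.D1).el) (δ : S.D1).nrd_el (fun y => by
      have h1 := (hT y y.2).2
      have e : δ • (y : L.G ⧸ L.H) = ((δ * Quotient.out (y : L.G ⧸ L.H) : L.G) : L.G ⧸ L.H) := by
        conv_lhs => rw [← QuotientGroup.out_eq' (y : L.G ⧸ L.H)]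
        rfl
      rw [e] at h1
      exact le_den (L.lev_of_out _ h1)) hi
  have hinj : Injective key := by
    intro y y' hyy
    have h1 := hkey y y' hyy
    set c : L.G := (Quotient.out (y' : L.G ⧸ L.H))⁻¹ * Quotient.out (y : L.G ⧸ L.H) with hc
    have hce : kbar ((Quotient.out (y' : L.G ⧸ L.H) : L.G) : S.D1).el * ((Quotient.out (y : L.G ⧸ L.H) : L.G) : S.D1).el =
        (c : S.D1).el := rfl
    rw [hce] at h1
    obtain ⟨m', hm'⟩ := L.lev c c.2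
    have h2 : KIn ⊤ (c : S.D1).el := den_top (fun l => (L.prime l).1) (fun l => (L.prime l).2) (le_den hm') h1
    have h3 : (1 : 𝓞 K) ∈ den (c : S.D1).el := by
      show KIn ⊤ (((1 : 𝓞 K) : K) • (c : S.D1).el)
      have : ((1 : 𝓞 K) : K) = 1 := rfl
      rwa [this, one_smul]
    have h4 := L.lev_den c.2 1 h3
    have h5 : ((1 : 𝓞 K) : K) = 1 := rfl
    rw [h5, one_smul] at h4
    have h6 : c ∈ L.H := L.mem_H.2 h4
    have h7 : ((Quotient.out (y' : L.G ⧸ L.H) : L.G) : L.G ⧸ L.H) = ((Quotient.out (y : L.G ⧸ L.H) : L.G) : L.G ⧸ L.H) :=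
      QuotientGroup.eq.2 h6
    rw [QuotientGroup.out_eq', QuotientGroup.out_eq'] at h7
    exact Subtype.ext h7.symm
  have h := Fintype.card_le_of_injective key hinj
  rw [Fintype.card_coe, Fintype.card_pi] at h
  simpa only [Fintype.card_fin] using h

theorem Level.finite_ball (m : ι → ℕ) :
    {y : L.G ⧸ L.H | Lev L.𝔫 (∏ l, L.𝔭 l ^ m l) ((Quotient.out y : L.G) : S.D1)}.Finite := by
  classical
  by_contra hinf
  obtain ⟨T, hT, hT2⟩ := Set.Infinite.exists_subset_card_eq hinf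
    (∏ l, ∑ k ∈ Finset.range (2 * m l + 1 - 0), Ideal.absNorm (L.𝔭 l) ^ k + 1)
  have h1 : den ((1 : L.G) : S.D1).el = ∏ l, L.𝔭 l ^ (fun _ => 0 : ι → ℕ) l := by
    simp only [pow_zero, Finset.prod_const_one]
    rw [Ideal.one_eq_top, eq_top_iff]
    intro t _
    show KIn ⊤ ((t : K) • ((1 : L.G) : S.D1).el)
    exact smul_one_in Submodule.mem_top
  have h2 := L.card_fiber m (fun _ => 0) 1 h1 T (fun y hy => ⟨hT hy, by
    rw [one_smul]
    exact hT hy⟩)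
  rw [hT2] at h2
  omega

/-- the ball in `G / Γ` -/
noncomputable def Level.Bl (m : ι → ℕ) : Finset (L.G ⧸ L.H) := (L.finite_ball m).toFinset

theorem Level.mem_Bl {m : ι → ℕ} {y : L.G ⧸ L.H} :
    y ∈ L.Bl m ↔ Lev L.𝔫 (∏ l, L.𝔭 l ^ m l) ((Quotient.out y : L.G) : S.D1) := by
  rw [Level.Bl, Set.Finite.mem_toFinset]
  rfl

theorem Level.hecke_sum {f : (W → UpperHalfPlane) → (V → ℍ[ℝ]) → ℂ} {m : ι → ℕ} {lam : ℝ} (h : L.IsHecke f m lam)
    (z : W → UpperHalfPlane) (x : V → ℍ[ℝ]) :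
    ∑ y ∈ L.Bl m, f (S.act (((Quotient.out y)⁻¹ : L.G) : S.D1) z) (S.rot (((Quotient.out y)⁻¹ : L.G) : S.D1) x) =
      (lam : ℂ) * f z x := by
  classical
  set φ : L.G ⧸ L.H → S.D1 := fun y => (((Quotient.out y)⁻¹ : L.G) : S.D1) with hφ
  have hinj : Injective φ := by
    intro y y' hyy
    have h1 : (Quotient.out y)⁻¹ = (Quotient.out y')⁻¹ := Subtype.ext hyy
    have h2 := inv_injective h1
    rw [← QuotientGroup.out_eq' y, ← QuotientGroup.out_eq' y', h2]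
  have hR : L.Reps m ((L.Bl m).image φ) := by
    constructor
    · intro r hr
      obtain ⟨y, hy, rfl⟩ := Finset.mem_image.1 hr
      refine ⟨((Quotient.out y)⁻¹ : L.G).2, ?_⟩
      have := lev_inv (L.mem_Bl.1 hy)
      exact this
    · rintro g ⟨hg, hlev⟩
      set g' : L.G := ⟨g, hg⟩ with hg'
      set y : L.G ⧸ L.H := ((g'⁻¹ : L.G) : L.G ⧸ L.H) with hy
      have hyB : y ∈ L.Bl m := L.mem_Bl.2 (L.lev_out _ (by
        have := lev_inv hlev
        exact this))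
      have hmem : ∀ y' : L.G ⧸ L.H, g * (φ y')⁻¹ ∈ L.Γ ↔ y' = y := by
        intro y'
        have e : g * (φ y')⁻¹ = ((g' * Quotient.out y' : L.G) : S.D1) := by
          rw [hφ]
          simp only
          rw [Subgroup.coe_inv, inv_inv, Subgroup.coe_mul]
        rw [e]
        have e2 : ((g' * Quotient.out y' : L.G) : S.D1) ∈ L.Γ ↔ g' * Quotient.out y' ∈ L.H := Iff.rfl
        rw [e2]
        have e3 : g' * Quotient.out y' = (g'⁻¹)⁻¹ * Quotient.out y' := by rw [inv_inv]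
        rw [e3, ← QuotientGroup.eq, QuotientGroup.out_eq']
        exact eq_comm
      refine ⟨φ y, ⟨Finset.mem_image_of_mem φ hyB, (hmem y).2 rfl⟩, ?_⟩
      rintro r ⟨hr, hr2⟩
      obtain ⟨y', hy', rfl⟩ := Finset.mem_image.1 hr
      rw [(hmem y').1 hr2]
  have h1 := h _ hR z x
  rw [Finset.sum_image fun y _ y' _ hyy => hinj hyy] at h1
  exact h1

theorem Level.ball_bound [DecidableEq ι] (m : ι → ℕ) [DecidableEq (L.G ⧸ L.H)] (δ : L.G) :
    (∀ y ∈ L.Bl m, δ • y ∉ L.Bl m) ∨ ∃ i ∈ Fintype.piFinset fun l : ι => Finset.range (2 * m l + 1),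
      Lev L.𝔫 (∏ l, L.𝔭 l ^ i l) (δ : S.D1) ∧ (((L.Bl m).filter fun y => δ • y ∈ L.Bl m).card : ℝ) ≤
      (∏ l, (2 * (m l : ℝ) + 1)) * L.size m / ∏ l, (Ideal.absNorm (L.𝔭 l) : ℝ) ^ i l := by
  by_cases h : ∀ y ∈ L.Bl m, δ • y ∉ L.Bl m
  · exact Or.inl h
  · right
    push Not at h
    obtain ⟨y, hy, hy2⟩ := h
    rw [L.mem_Bl] at hy hy2
    have e : ∀ y : L.G ⧸ L.H, δ • y = ((δ * Quotient.out y : L.G) : L.G ⧸ L.H) := by
      intro y
      conv_lhs => rw [← QuotientGroup.out_eq' y]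
      rfl
    rw [e y] at hy2
    have h1 := den_mul (le_den hy) (le_den (L.lev_of_out _ hy2))
    have h2 : ∏ l, L.𝔭 l ^ (2 * m l) ≤ den (δ : S.D1).el := by
      have e2 : ∏ l, L.𝔭 l ^ (2 * m l) = (∏ l, L.𝔭 l ^ m l) * ∏ l, L.𝔭 l ^ m l := by
        rw [← Finset.prod_mul_distrib]
        refine Finset.prod_congr rfl fun l _ => ?_
        rw [two_mul, pow_add]
      rw [e2]
      exact h1
    obtain ⟨i, hi, hi2⟩ := exists_exp L.𝔭 (fun l => Ideal.prime_of_isPrime (L.prime l).2 (L.prime l).1)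
      (fun l => 2 * m l) Finset.univ (den (δ : S.D1).el) (Ideal.dvd_iff_le.2 h2)
    refine ⟨i, Fintype.mem_piFinset.2 fun l => Finset.mem_range.2 (Nat.lt_succ_of_le (hi l)), ?_, ?_⟩
    · rw [← hi2]
      exact L.lev_den δ.2
    · have h3 := L.card_fiber m i δ hi2 ((L.Bl m).filter fun y => δ • y ∈ L.Bl m) (fun y hy => by
        obtain ⟨a1, a2⟩ := Finset.mem_filter.1 hy
        exact ⟨L.mem_Bl.1 a1, L.mem_Bl.1 a2⟩)
      have h4 := card_le (q := fun l => Ideal.absNorm (L.𝔭 l)) (m := m) (i := i) (fun l => Nat.one_le_iff_ne_zero.2 (by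
        rw [Ne, Ideal.absNorm_eq_zero_iff]
        exact (L.prime l).2)) hi
      refine le_trans ?_ h4
      exact_mod_cast h3

end ball

section cls
variable {W V : Type} [Fintype W] [DecidableEq W] [Fintype V] [DecidableEq V] {K : Type} [Field K] [NumberField K]
  {S : Setting K W V} {ι : Type} [Fintype ι] [DecidableEq ι] (L : Level S ι)

omit [DecidableEq W] [DecidableEq V] [DecidableEq ι] in
theorem Level.one_le_norm (l : ι) : (1 : ℝ) ≤ Ideal.absNorm (L.𝔭 l) := by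
  have h0 : Ideal.absNorm (L.𝔭 l) ≠ 0 := by
    rw [Ne, Ideal.absNorm_eq_zero_iff]
    exact (L.prime l).2
  exact_mod_cast Nat.one_le_iff_ne_zero.2 h0

omit [DecidableEq W] [DecidableEq V] [DecidableEq ι] in
theorem Level.one_le_size (m : ι → ℕ) : 1 ≤ L.size m := by
  calc (1 : ℝ) = ∏ _l : ι, (1 : ℝ) := by simp
    _ ≤ _ := Finset.prod_le_prod (fun _ _ => zero_le_one) fun l _ => one_le_pow₀ (L.one_le_norm l)

omit [DecidableEq V] in
theorem one_le_dims (n : V → ℕ) : 1 ≤ dims n := by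
  calc (1 : ℝ) = ∏ _v : V, (1 : ℝ) := by simp
    _ ≤ ∏ v, ((n v : ℝ) + 1) := Finset.prod_le_prod (fun _ _ => zero_le_one) fun v _ => by
      have : (0 : ℝ) ≤ n v := by positivity
      linarith

theorem eigT_ge {q : ℕ} (hq : (1 : ℝ) ≤ q) (θ : ℝ) (m : ℕ) : (q : ℝ) ^ m * (q : ℝ) ^ (2 * θ * m) ≤ eigT q θ m := by
  have hq0 : (0 : ℝ) < q := by linarith
  rw [eigT]
  refine mul_le_mul_of_nonneg_left ?_ (by positivity)
  have h := Finset.single_le_sum (f := fun i : ℤ => (q : ℝ) ^ (2 * θ * i)) (s := Finset.Icc (-(m : ℤ)) m)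
    (fun i _ => by positivity) (show (m : ℤ) ∈ Finset.Icc (-(m : ℤ)) m from Finset.mem_Icc.2 ⟨by omega, le_rfl⟩)
  simp only [Int.cast_natCast] at h
  exact h

theorem eigT_pos {q : ℕ} (hq : (1 : ℝ) ≤ q) (θ : ℝ) (m : ℕ) : 0 < eigT q θ m := by
  have hq0 : (0 : ℝ) < q := by linarith
  exact lt_of_lt_of_le (by positivity) (eigT_ge hq θ m)

theorem eigT_sq {q : ℕ} (hq : (1 : ℝ) ≤ q) (θ : ℝ) (m : ℕ) :
    (q : ℝ) ^ (2 * m) * ((q : ℝ) ^ (2 * m)) ^ (2 * θ) ≤ eigT q θ m ^ 2 := by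
  have hq0 : (0 : ℝ) < q := by linarith
  have h := pow_le_pow_left₀ (by positivity) (eigT_ge hq θ m) 2
  refine le_trans (le_of_eq ?_) h
  rw [mul_pow, ← pow_mul, mul_comm m 2]
  congr 1
  rw [← Real.rpow_natCast, ← Real.rpow_mul hq0.le, ← Real.rpow_natCast, ← Real.rpow_mul hq0.le]
  congr 1
  push_cast
  ring

open Pool.Agent.H496.R6 Pool.Agent.H496.R4 Pool.Agent.H496.R7 in
theorem one_class (p : W → Prop) [DecidablePred p] {U Λ : W → ℝ} (hU : ∀ w, 6 ≤ U w) (hΛ : ∀ w, 1 ≤ Λ w)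
    {n : V → ℕ} {F : Set (W → UpperHalfPlane)} (hFc : S.Covers L.Γ F) {J : Type} [Fintype J] [DecidableEq J]
    (f : J → (W → UpperHalfPlane) → (V → ℍ[ℝ]) → ℂ) {lam ϑ : J → W → ℝ}
    (hf : ∀ j, IsForm S L.Γ (f j) (lam j) n)
    (ho : ∀ i j, petersson F (f i) (f j) = if i = j then 1 else 0)
    (hlam2 : ∀ j w, ¬ p w → |lam j w| ≤ Λ w) (hϑ : ∀ j w, p w → 0 ≤ ϑ j w) (hϑ2 : ∀ j w, p w → ϑ j w ≤ 1 / 2)
    (hlam : ∀ j w, p w → lam j w ≤ 1 / 4 - ϑ j w ^ 2)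
    (m : ι → ℕ) {h' : J → ℝ} (hh' : ∀ j, 0 < h' j) (hhecke : ∀ j, L.IsHecke (f j) m (h' j))
    (z : W → UpperHalfPlane) (x : V → S3) {Z c6 : ℝ} (hZ : 0 ≤ Z)
    (hcount : ∀ i ∈ Fintype.piFinset fun l : ι => Finset.range (2 * m l + 1),
      CountHyp2 (fun w : WP p => S.hom L.G w) (fun w : WQ p => S.hom L.G w) (S.homH L.G) (fun w => z w) (fun w => z w)
        (fun γ => Lev L.𝔫 (∏ l, L.𝔭 l ^ i l) (γ : S.D1)) (fun w : WP p => U w) Z
        ((∏ l, (Ideal.absNorm (L.𝔭 l) : ℝ) ^ i l) / Ideal.absNorm L.𝔫)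
        ((∏ l, (Ideal.absNorm (L.𝔭 l) : ℝ) ^ i l) / (Ideal.absNorm L.𝔫 : ℝ) ^ 2))
    (hX : (∏ w : WP p, U w) * L.size m ≤ c6 * cond L.𝔫 n) :
    ∑ j, ((∏ w : WP p, U w ^ (1 + 2 * ϑ j w)) * h' j ^ 2) * ‖f j z (fun v => (x v).1)‖ ^ 2 ≤
      (∏ w : WQ p, (17 * Λ w)) * (((∏ w : WP p, U w) * L.size m) * ((∏ l, (2 * (m l : ℝ) + 1)) ^ 2 *
        (((∏ w : WP p, (nsc (U w) : ℝ)) * ∏ v, ((scl (n v) : ℝ) + 1)) * (32 ^ Fintype.card (WP p) * 2 ^ Fintype.card V) *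
          (∏ v, ((n v : ℝ) + 1)) * Z *
          ((2 ^ Fintype.card V + 2 + 4 ^ Fintype.card (WP p) * c6) * ∏ v, ((n v : ℝ) + 1))))) := by
  classical
  obtain ⟨hF, hcov⟩ := hFc
  have hcD : Countable S.D1 := countable_NormOne K (S.a : K) (S.b : K)
  have hcG : Countable L.G := inferInstance
  have hU1 : ∀ w, 1 ≤ U w := fun w => by linarith [hU w]
  have hcov' : ∀ᵐ z : W → UpperHalfPlane, {γ : L.H | (fun w => S.hom L.G w (γ : L.G) • z w) ∈ F}.Finite ∧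
      ∃ γ : L.H, (fun w => S.hom L.G w (γ : L.G) • z w) ∈ F := by
    filter_upwards [hcov] with z hz
    constructor
    · refine Set.Finite.of_finite_image (f := fun γ : L.H => ((γ : L.G) : S.D1)) (hz.1.subset ?_)
        (fun γ _ γ' _ h => Subtype.ext (Subtype.ext h))
      rintro _ ⟨γ, hγ, rfl⟩
      exact ⟨γ.2, hγ⟩
    · obtain ⟨γ, hγ, h⟩ := hz.2
      exact ⟨⟨⟨γ, hγ.1⟩, hγ⟩, h⟩
  have hN0 : Ideal.absNorm L.𝔫 ≠ 0 := by
    rw [Ne, Ideal.absNorm_eq_zero_iff]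
    exact L.ne
  have hN1 : (1 : ℝ) ≤ Ideal.absNorm L.𝔫 := by exact_mod_cast Nat.one_le_iff_ne_zero.2 hN0
  have hNI1 : ∀ i : ι → ℕ, (1 : ℝ) ≤ ∏ l, (Ideal.absNorm (L.𝔭 l) : ℝ) ^ i l := by
    intro i
    calc (1 : ℝ) = ∏ _l : ι, (1 : ℝ) := by simp
      _ ≤ _ := Finset.prod_le_prod (fun _ _ => zero_le_one) fun l _ => one_le_pow₀ (L.one_le_norm l)
  have hsize1 := L.one_le_size m
  have hD10 : (0 : ℝ) ≤ ∏ l, (2 * (m l : ℝ) + 1) := Finset.prod_nonneg fun l _ => by positivity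
  have core := coreH L.H p (S.hom L.G) (S.homH L.G) (norm_homH S L.G) (U := U) (L := Λ) f (lam := lam) (n := n)
    (F := F) hU hΛ hF hcov' (fun j => (hf j).continuous)
    (fun j γ hγ z x => (hf j).invariant γ hγ z x)
    (fun j w z x => (hf j).laplace w z x)
    (fun j z => (hf j).weight z) ho hlam2 hϑ hϑ2 hlam (L.Bl m) hh' (fun j z x => L.hecke_sum (hhecke j) z x) z
    (Fintype.piFinset fun l : ι => Finset.range (2 * m l + 1))
    (Lv := fun i γ => Lev L.𝔫 (∏ l, L.𝔭 l ^ i l) (γ : S.D1)) (Z := Z)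
    (q1 := fun i => (∏ l, (Ideal.absNorm (L.𝔭 l) : ℝ) ^ i l) / Ideal.absNorm L.𝔫)
    (q2 := fun i => (∏ l, (Ideal.absNorm (L.𝔭 l) : ℝ) ^ i l) / (Ideal.absNorm L.𝔫 : ℝ) ^ 2)
    (bb := fun i => (∏ l, (2 * (m l : ℝ) + 1)) * L.size m / ∏ l, (Ideal.absNorm (L.𝔭 l) : ℝ) ^ i l)
    hZ (fun i => div_nonneg (by linarith [hNI1 i]) (by linarith)) (fun i => div_nonneg (by linarith [hNI1 i]) (by positivity))
    (fun i => div_nonneg (mul_nonneg hD10 (by linarith)) (by linarith [hNI1 i])) hcount (fun δ => L.ball_bound m δ) x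
  have hsum := sum_KB2 (P := WP p) (U := fun w : WP p => U w) (fun w => hU1 w) (Z := Z) (N := Ideal.absNorm L.𝔫)
    (M2 := L.size m) (D1 := ∏ l, (2 * (m l : ℝ) + 1)) (c6 := c6) (Fintype.piFinset fun l : ι => Finset.range (2 * m l + 1))
    (fun i => ∏ l, (Ideal.absNorm (L.𝔭 l) : ℝ) ^ i l) (fun i _ => hNI1 i) (fun i hi => by
      rw [Level.size]
      refine Finset.prod_le_prod (fun l _ => by positivity) fun l _ => ?_
      have := Finset.mem_range.1 (Fintype.mem_piFinset.1 hi l)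
      exact pow_le_pow_right₀ (L.one_le_norm l) (by omega)) (by
      rw [Fintype.card_piFinset]
      simp only [Finset.card_range]
      push_cast
      exact le_rfl) n hN1 hZ hsize1 hX
  refine core.trans (mul_le_mul_of_nonneg_left hsum (Finset.prod_nonneg fun w _ => ?_))
  have := hΛ w
  positivity

end cls

section fin
variable {W V : Type} [Fintype W] [DecidableEq W] [Fintype V] [DecidableEq V] {K : Type} [Field K] [NumberField K]
  {S : Setting K W V} {ι : Type} [Fintype ι] [DecidableEq ι] (L : Level S ι)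

open Pool.Agent.H496.R7 in
/-- the bound for a class -/
noncomputable def TT (W V : Type) [Fintype W] [Fintype V] (δ Z0 X P : ℝ) : ℝ :=
  ((LL δ ^ Fintype.card W * (12 ^ Fintype.card W * X) ^ δ) * ((LL δ * 2 ^ δ) ^ Fintype.card V * X ^ δ)) *
    (32 ^ Fintype.card W * 2 ^ Fintype.card V) * P * (Z0 * (24 ^ Fintype.card W * X) ^ δ) *
    ((2 ^ Fintype.card V + 2 + 24 ^ Fintype.card W) * P)

omit [DecidableEq V] [DecidableEq W] [DecidableEq ι] in
theorem one_le_cond (n : V → ℕ) : 1 ≤ cond L.𝔫 n := by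
  have hN0 : Ideal.absNorm L.𝔫 ≠ 0 := by
    rw [Ne, Ideal.absNorm_eq_zero_iff]
    exact L.ne
  have hN1 : (1 : ℝ) ≤ Ideal.absNorm L.𝔫 := by exact_mod_cast Nat.one_le_iff_ne_zero.2 hN0
  exact one_le_mul_of_one_le_of_one_le (one_le_pow₀ hN1) (one_le_dims n)

omit [DecidableEq V] [DecidableEq W] [DecidableEq ι] in
theorem dims_le_cond (n : V → ℕ) : dims n ≤ cond L.𝔫 n := by
  have hN0 : Ideal.absNorm L.𝔫 ≠ 0 := by
    rw [Ne, Ideal.absNorm_eq_zero_iff]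
    exact L.ne
  have hN1 : (1 : ℝ) ≤ Ideal.absNorm L.𝔫 := by exact_mod_cast Nat.one_le_iff_ne_zero.2 hN0
  exact le_mul_of_one_le_left (by linarith [one_le_dims n]) (one_le_pow₀ hN1)

open Pool.Agent.H496.R6 Pool.Agent.H496.R4 Pool.Agent.H496.R7 in
theorem class_bound (p : W → Prop) [DecidablePred p] {U Λ : W → ℝ} (hU : ∀ w, 1 ≤ U w) (hΛ : ∀ w, 1 ≤ Λ w)
    {n : V → ℕ} {F : Set (W → UpperHalfPlane)} (hFc : S.Covers L.Γ F) {J : Type} [Fintype J] [DecidableEq J]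
    (f : J → (W → UpperHalfPlane) → (V → ℍ[ℝ]) → ℂ) {lam ϑ : J → W → ℝ} {θ : J → ι → ℝ}
    (hf : ∀ j, IsForm S L.Γ (f j) (lam j) n)
    (ho : ∀ i j, petersson F (f i) (f j) = if i = j then 1 else 0)
    (hlam2 : ∀ j w, ¬ p w → |lam j w| ≤ Λ w) (hϑ0 : ∀ j w, ¬ p w → ϑ j w = 0)
    (hϑ : ∀ j w, p w → 0 ≤ ϑ j w) (hϑ2 : ∀ j w, p w → ϑ j w ≤ 1 / 2)
    (hlam : ∀ j w, p w → lam j w ≤ 1 / 4 - ϑ j w ^ 2)
    {m m' : ι → ℕ} (hm : ∀ j l, m' l = m l ∨ (m' l = 0 ∧ θ j l = 0))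
    (hhecke : ∀ j, L.IsHecke (f j) m' (∏ l, eigT (Ideal.absNorm (L.𝔭 l)) (θ j l) (m' l)))
    (z : W → UpperHalfPlane) (x : V → S3) {δ Z0 : ℝ} (hδ : 0 < δ) (hZ0 : 0 < Z0)
    (hcount : ∀ U : W → ℝ, (∀ w, 1 ≤ U w) → ∀ (i : ι → ℕ) (M2 : ℝ), ∏ l, (Ideal.absNorm (L.𝔭 l) : ℝ) ^ i l ≤ M2 →
      CountHyp2 (fun w : WP p => S.hom L.G w) (fun w : WQ p => S.hom L.G w) (S.homH L.G) (fun w => z w) (fun w => z w)
        (fun γ => Lev L.𝔫 (∏ l, L.𝔭 l ^ i l) (γ : S.D1)) (fun w : WP p => U w)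
        (Z0 * (4 ^ Fintype.card W * (∏ w : WP p, U w) * M2) ^ δ)
        ((∏ l, (Ideal.absNorm (L.𝔭 l) : ℝ) ^ i l) / Ideal.absNorm L.𝔫)
        ((∏ l, (Ideal.absNorm (L.𝔭 l) : ℝ) ^ i l) / (Ideal.absNorm L.𝔫 : ℝ) ^ 2))
    (hX : (∏ w, U w) * L.size m ≤ cond L.𝔫 n) :
    ∑ j, L.gain U m (ϑ j) (θ j) * ‖f j z (fun v => (x v).1)‖ ^ 2 ≤
      (17 ^ Fintype.card W * ∏ w, Λ w) * ((∏ l, (2 * (m l : ℝ) + 1)) ^ 2 * TT W V δ Z0 (cond L.𝔫 n) (dims n)) := by
  classical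
  set X : ℝ := cond L.𝔫 n with hXdef
  set P : ℝ := dims n with hP
  have hP1 : 1 ≤ P := one_le_dims n
  have hPX : P ≤ X := dims_le_cond L n
  have hX1 : 1 ≤ X := one_le_cond L n
  have hX0 : 0 < X := by linarith
  set U' : W → ℝ := fun w => 6 * U w with hU'
  have hU6 : ∀ w, 6 ≤ U' w := fun w => by
    have := hU w
    rw [hU']
    simp only
    linarith
  have hU'1 : ∀ w, 1 ≤ U' w := fun w => by linarith [hU6 w]
  have hU'0 : ∀ w, 0 < U' w := fun w => by linarith [hU6 w]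
  have hU0 : ∀ w, 0 < U w := fun w => by linarith [hU w]
  have hmm : ∀ l, m' l ≤ m l ∨ IsEmpty J := by
    intro l
    rcases isEmpty_or_nonempty J with h | ⟨⟨j⟩⟩
    · exact Or.inr h
    · left
      rcases hm j l with h | h
      · exact h.le
      · rw [h.1]
        exact Nat.zero_le _
  rcases isEmpty_or_nonempty J with hJ | hJ
  · rw [Finset.univ_eq_empty, Finset.sum_empty]
    have h1 : 0 ≤ ∏ w, Λ w := Finset.prod_nonneg fun w _ => by linarith [hΛ w]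
    have h2 : 0 ≤ TT W V δ Z0 X P := by
      have := one_le_LL hδ
      unfold TT
      positivity
    positivity
  have hmle : ∀ l, m' l ≤ m l := fun l => (hmm l).resolve_right (not_isEmpty_of_nonempty J)
  have hsz : L.size m' ≤ L.size m := Finset.prod_le_prod (fun l _ => by positivity) fun l _ =>
    pow_le_pow_right₀ (L.one_le_norm l) (by have := hmle l; omega)
  have hsz1 := L.one_le_size m'
  have hsz0 : 0 < L.size m' := by linarith
  have hPUp : ∀ Q : W → ℝ, (∀ w, 1 ≤ Q w) → ∏ w : WP p, Q w ≤ ∏ w, Q w := by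
    intro Q hQ
    rw [← Fintype.prod_subtype_mul_prod_subtype p Q]
    refine le_mul_of_one_le_right (Finset.prod_nonneg fun w _ => by linarith [hQ w]) ?_
    calc (1 : ℝ) = ∏ _w : WQ p, (1 : ℝ) := by simp
      _ ≤ _ := Finset.prod_le_prod (fun _ _ => zero_le_one) fun w _ => hQ w
  have hPU' : ∏ w : WP p, U' w ≤ 6 ^ Fintype.card W * ∏ w, U w := by
    refine (hPUp U' hU'1).trans (le_of_eq ?_)
    rw [hU', Finset.prod_mul_distrib, Finset.prod_const, Finset.card_univ]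
  have hPU'1 : 1 ≤ ∏ w : WP p, U' w := by
    calc (1 : ℝ) = ∏ _w : WP p, (1 : ℝ) := by simp
      _ ≤ _ := Finset.prod_le_prod (fun _ _ => zero_le_one) fun w _ => hU'1 w
  have hPU0 : 0 < ∏ w, U w := Finset.prod_pos fun w _ => hU0 w
  have hXX : (∏ w : WP p, U' w) * L.size m' ≤ 6 ^ Fintype.card W * X := by
    calc (∏ w : WP p, U' w) * L.size m' ≤ (6 ^ Fintype.card W * ∏ w, U w) * L.size m := by gcongr
      _ = 6 ^ Fintype.card W * ((∏ w, U w) * L.size m) := by ring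
      _ ≤ _ := by gcongr
  have hPUX : ∏ w : WP p, U' w ≤ 6 ^ Fintype.card W * X := by
    refine le_trans ?_ hXX
    exact le_mul_of_one_le_right (by linarith) hsz1
  set h' : J → ℝ := fun j => ∏ l, eigT (Ideal.absNorm (L.𝔭 l)) (θ j l) (m' l) with hh'
  have hh'0 : ∀ j, 0 < h' j := fun j => Finset.prod_pos fun l _ => eigT_pos (L.one_le_norm l) _ _
  set Z : ℝ := Z0 * (4 ^ Fintype.card W * (∏ w : WP p, U' w) * L.size m') ^ δ with hZ
  have hB0 : 0 < 4 ^ Fintype.card W * (∏ w : WP p, U' w) * L.size m' := by positivity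
  have hZn : 0 ≤ Z := by positivity
  have key := one_class L p (U := U') (Λ := Λ) hU6 hΛ hFc f hf ho hlam2 hϑ hϑ2 hlam m' hh'0 hhecke z x (Z := Z)
    (c6 := 6 ^ Fintype.card W) hZn (fun i hi => hcount U' hU'1 i (L.size m') (by
      rw [Level.size]
      refine Finset.prod_le_prod (fun l _ => by positivity) fun l _ => ?_
      have := Finset.mem_range.1 (Fintype.mem_piFinset.1 hi l)
      exact pow_le_pow_right₀ (L.one_le_norm l) (by omega))) hXX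
  -- the coefficients
  have hcoef : ∀ j, ((∏ w : WP p, U' w) * L.size m') * L.gain U m (ϑ j) (θ j) ≤
      (∏ w : WP p, U' w ^ (1 + 2 * ϑ j w)) * h' j ^ 2 := by
    intro j
    have e1 : (∏ w, U w ^ (2 * ϑ j w)) = ∏ w : WP p, U w ^ (2 * ϑ j w) := by
      rw [← Fintype.prod_subtype_mul_prod_subtype p (fun w => U w ^ (2 * ϑ j w))]
      have h1 : ∏ w : WQ p, U w ^ (2 * ϑ j w) = 1 := Finset.prod_eq_one fun w _ => by
        rw [hϑ0 j w w.2, mul_zero, Real.rpow_zero]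
      show (∏ w : WP p, U w ^ (2 * ϑ j w)) * (∏ w : WQ p, U w ^ (2 * ϑ j w)) = _
      rw [h1, mul_one]
    have e2 : ∏ l, ((Ideal.absNorm (L.𝔭 l) : ℝ) ^ (2 * m l)) ^ (2 * θ j l) =
        ∏ l, ((Ideal.absNorm (L.𝔭 l) : ℝ) ^ (2 * m' l)) ^ (2 * θ j l) := by
      refine Finset.prod_congr rfl fun l _ => ?_
      rcases hm j l with h | h
      · rw [h]
      · rw [h.2, mul_zero, Real.rpow_zero, Real.rpow_zero]
    have e3 : (∏ w : WP p, U' w) * (∏ w : WP p, U w ^ (2 * ϑ j w)) ≤ ∏ w : WP p, U' w ^ (1 + 2 * ϑ j w) := by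
      rw [← Finset.prod_mul_distrib]
      refine Finset.prod_le_prod (fun w _ => ?_) fun w _ => ?_
      · have := hU'0 w
        have := hU0 w
        positivity
      · rw [Real.rpow_add (hU'0 w), Real.rpow_one]
        refine mul_le_mul_of_nonneg_left ?_ (hU'0 w).le
        refine Real.rpow_le_rpow (hU0 w).le ?_ (by have := hϑ j w w.2; linarith)
        rw [hU']
        simp only
        linarith [hU0 w]
    have e4 : L.size m' * ∏ l, ((Ideal.absNorm (L.𝔭 l) : ℝ) ^ (2 * m' l)) ^ (2 * θ j l) ≤ h' j ^ 2 := by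
      rw [hh', Level.size, ← Finset.prod_mul_distrib]
      simp only
      rw [← Finset.prod_pow]
      refine Finset.prod_le_prod (fun l _ => by positivity) fun l _ => eigT_sq (L.one_le_norm l) _ _
    rw [Level.gain, e1, e2]
    have hnn1 : 0 ≤ L.size m' * ∏ l, ((Ideal.absNorm (L.𝔭 l) : ℝ) ^ (2 * m' l)) ^ (2 * θ j l) :=
      mul_nonneg hsz0.le (Finset.prod_nonneg fun l _ => by positivity)
    have hnn2 : 0 ≤ ∏ w : WP p, U' w ^ (1 + 2 * ϑ j w) := Finset.prod_nonneg fun w _ => by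
      have := hU'0 w
      positivity
    calc ((∏ w : WP p, U' w) * L.size m') * ((∏ w : WP p, U w ^ (2 * ϑ j w)) *
          ∏ l, ((Ideal.absNorm (L.𝔭 l) : ℝ) ^ (2 * m' l)) ^ (2 * θ j l)) =
        ((∏ w : WP p, U' w) * (∏ w : WP p, U w ^ (2 * ϑ j w))) *
          (L.size m' * ∏ l, ((Ideal.absNorm (L.𝔭 l) : ℝ) ^ (2 * m' l)) ^ (2 * θ j l)) := by ring
      _ ≤ _ := mul_le_mul e3 e4 hnn1 hnn2
  have hleft : ((∏ w : WP p, U' w) * L.size m') * ∑ j, L.gain U m (ϑ j) (θ j) * ‖f j z (fun v => (x v).1)‖ ^ 2 ≤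
      ∑ j, ((∏ w : WP p, U' w ^ (1 + 2 * ϑ j w)) * h' j ^ 2) * ‖f j z (fun v => (x v).1)‖ ^ 2 := by
    rw [Finset.mul_sum]
    refine Finset.sum_le_sum fun j _ => ?_
    rw [← mul_assoc]
    exact mul_le_mul_of_nonneg_right (hcoef j) (sq_nonneg _)
  -- the right hand side
  have hΛQ : ∏ w : WQ p, (17 * Λ w) ≤ 17 ^ Fintype.card W * ∏ w, Λ w := by
    have h1 : ∏ w : WQ p, (17 * Λ w) ≤ ∏ w, (17 * Λ w) := by
      rw [← Fintype.prod_subtype_mul_prod_subtype p (fun w => 17 * Λ w)]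
      refine le_mul_of_one_le_left (Finset.prod_nonneg fun w _ => by linarith [hΛ w]) ?_
      calc (1 : ℝ) = ∏ _w : WP p, (1 : ℝ) := by simp
        _ ≤ _ := Finset.prod_le_prod (fun _ _ => zero_le_one) fun w _ => by
          have := hΛ w
          linarith
    refine h1.trans (le_of_eq ?_)
    rw [Finset.prod_mul_distrib, Finset.prod_const, Finset.card_univ]
  have hcW : Fintype.card (WP p) ≤ Fintype.card W := Fintype.card_subtype_le _
  have hLL := one_le_LL hδ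
  have r1 : ∏ w : WP p, (nsc (U' w) : ℝ) ≤ LL δ ^ Fintype.card W * (12 ^ Fintype.card W * X) ^ δ := by
    have h1 := nsc_prod_le (P := WP p) hδ (U := fun w : WP p => U' w) (fun w => hU'1 w)
    refine h1.trans ?_
    have h2 : LL δ ^ Fintype.card (WP p) ≤ LL δ ^ Fintype.card W := pow_le_pow_right₀ hLL hcW
    have h3 : (2 ^ Fintype.card (WP p) * ∏ w : WP p, U' w) ^ δ ≤ (12 ^ Fintype.card W * X) ^ δ := by
      refine Real.rpow_le_rpow (by positivity) ?_ hδ.le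
      calc 2 ^ Fintype.card (WP p) * ∏ w : WP p, U' w ≤ 2 ^ Fintype.card W * (6 ^ Fintype.card W * X) := by
            have h4 : (2 : ℝ) ^ Fintype.card (WP p) ≤ 2 ^ Fintype.card W := pow_le_pow_right₀ (by norm_num) hcW
            gcongr
        _ = (2 * 6) ^ Fintype.card W * X := by rw [mul_pow]; ring
        _ = _ := by norm_num
    gcongr
  have r2 : ∏ v, ((scl (n v) : ℝ) + 1) ≤ (LL δ * 2 ^ δ) ^ Fintype.card V * X ^ δ := by
    refine (scl_prod_le hδ n).trans ?_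
    have h1 : (∏ v, ((n v : ℝ) + 1)) ^ δ ≤ X ^ δ := Real.rpow_le_rpow (by
      have : ∏ v, ((n v : ℝ) + 1) = P := rfl
      rw [this]
      linarith) hPX hδ.le
    gcongr
  have r3 : (32 : ℝ) ^ Fintype.card (WP p) * 2 ^ Fintype.card V ≤ 32 ^ Fintype.card W * 2 ^ Fintype.card V := by
    have : (32 : ℝ) ^ Fintype.card (WP p) ≤ 32 ^ Fintype.card W := pow_le_pow_right₀ (by norm_num) hcW
    gcongr
  have r4 : Z ≤ Z0 * (24 ^ Fintype.card W * X) ^ δ := by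
    rw [hZ]
    refine mul_le_mul_of_nonneg_left (Real.rpow_le_rpow hB0.le ?_ hδ.le) hZ0.le
    calc 4 ^ Fintype.card W * (∏ w : WP p, U' w) * L.size m' = 4 ^ Fintype.card W * ((∏ w : WP p, U' w) * L.size m') := by ring
      _ ≤ 4 ^ Fintype.card W * (6 ^ Fintype.card W * X) := by gcongr
      _ = (4 * 6) ^ Fintype.card W * X := by rw [mul_pow]; ring
      _ = _ := by norm_num
  have r5 : (2 : ℝ) ^ Fintype.card V + 2 + 4 ^ Fintype.card (WP p) * 6 ^ Fintype.card W ≤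
      2 ^ Fintype.card V + 2 + 24 ^ Fintype.card W := by
    have h1 : (4 : ℝ) ^ Fintype.card (WP p) ≤ 4 ^ Fintype.card W := pow_le_pow_right₀ (by norm_num) hcW
    have h2 : (4 : ℝ) ^ Fintype.card (WP p) * 6 ^ Fintype.card W ≤ 4 ^ Fintype.card W * 6 ^ Fintype.card W := by gcongr
    have h3 : (4 : ℝ) ^ Fintype.card W * 6 ^ Fintype.card W = 24 ^ Fintype.card W := by
      rw [← mul_pow]
      norm_num
    linarith
  have rD : (∏ l, (2 * (m' l : ℝ) + 1)) ≤ ∏ l, (2 * (m l : ℝ) + 1) := by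
    refine Finset.prod_le_prod (fun l _ => by positivity) fun l _ => ?_
    have : (m' l : ℝ) ≤ m l := by exact_mod_cast hmle l
    linarith
  have hPd : ∏ v, ((n v : ℝ) + 1) = P := rfl
  rw [hPd] at key
  have hns0 : 0 ≤ ∏ w : WP p, (nsc (U' w) : ℝ) := Finset.prod_nonneg fun w _ => by positivity
  have hsc0 : 0 ≤ ∏ v, ((scl (n v) : ℝ) + 1) := Finset.prod_nonneg fun v _ => by positivity
  have hP0 : 0 ≤ P := by linarith
  have rT : ((∏ w : WP p, (nsc (U' w) : ℝ)) * ∏ v, ((scl (n v) : ℝ) + 1)) *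
      (32 ^ Fintype.card (WP p) * 2 ^ Fintype.card V) * P * Z *
      ((2 ^ Fintype.card V + 2 + 4 ^ Fintype.card (WP p) * 6 ^ Fintype.card W) * P) ≤ TT W V δ Z0 X P := by
    rw [TT]
    gcongr
  have hTT0 : 0 ≤ TT W V δ Z0 X P := le_trans (by positivity) rT
  have hD0 : 0 ≤ ∏ l, (2 * (m' l : ℝ) + 1) := Finset.prod_nonneg fun l _ => by positivity
  have hB : 0 < (∏ w : WP p, U' w) * L.size m' := by positivity
  refine le_of_mul_le_mul_left (hleft.trans (key.trans ?_)) hB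
  have hQ0 : 0 ≤ ∏ w : WQ p, (17 * Λ w) := Finset.prod_nonneg fun w _ => by linarith [hΛ w]
  have hfin : (∏ l, (2 * (m' l : ℝ) + 1)) ^ 2 * (((∏ w : WP p, (nsc (U' w) : ℝ)) * ∏ v, ((scl (n v) : ℝ) + 1)) *
      (32 ^ Fintype.card (WP p) * 2 ^ Fintype.card V) * P * Z *
      ((2 ^ Fintype.card V + 2 + 4 ^ Fintype.card (WP p) * 6 ^ Fintype.card W) * P)) ≤
      (∏ l, (2 * (m l : ℝ) + 1)) ^ 2 * TT W V δ Z0 X P := by gcongr
  calc (∏ w : WQ p, (17 * Λ w)) * (((∏ w : WP p, U' w) * L.size m') * ((∏ l, (2 * (m' l : ℝ) + 1)) ^ 2 *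
        (((∏ w : WP p, (nsc (U' w) : ℝ)) * ∏ v, ((scl (n v) : ℝ) + 1)) *
        (32 ^ Fintype.card (WP p) * 2 ^ Fintype.card V) * P * Z *
        ((2 ^ Fintype.card V + 2 + 4 ^ Fintype.card (WP p) * 6 ^ Fintype.card W) * P)))) ≤
      (17 ^ Fintype.card W * ∏ w, Λ w) * (((∏ w : WP p, U' w) * L.size m') *
        ((∏ l, (2 * (m l : ℝ) + 1)) ^ 2 * TT W V δ Z0 X P)) := by
        refine mul_le_mul hΛQ (mul_le_mul_of_nonneg_left hfin hB.le) ?_ (hQ0.trans hΛQ)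
        exact mul_nonneg hB.le (by positivity)
    _ = _ := by ring

end fin

section consts

open Pool.Agent.H496.R7 in
/-- the constant -/
noncomputable def cst (W V : Type) [Fintype W] [Fintype V] (δ Z0 : ℝ) : ℝ :=
  (LL δ ^ Fintype.card W * (12 ^ Fintype.card W) ^ δ) * (LL δ * 2 ^ δ) ^ Fintype.card V *
    (32 ^ Fintype.card W * 2 ^ Fintype.card V) * (Z0 * (24 ^ Fintype.card W) ^ δ) *
    (2 ^ Fintype.card V + 2 + 24 ^ Fintype.card W)

theorem cst_pos (W V : Type) [Fintype W] [Fintype V] {δ Z0 : ℝ} (hδ : 0 < δ) (hZ : 0 < Z0) : 0 < cst W V δ Z0 := by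
  have := Pool.Agent.H496.R7.one_le_LL hδ
  unfold cst
  positivity

theorem TT_eq (W V : Type) [Fintype W] [Fintype V] {δ Z0 X P : ℝ} (hX : 0 < X) :
    TT W V δ Z0 X P = cst W V δ Z0 * X ^ (3 * δ) * P ^ 2 := by
  have hpow : X ^ (3 * δ) = X ^ δ * X ^ δ * X ^ δ := by
    rw [← Real.rpow_add hX, ← Real.rpow_add hX]
    congr 1
    ring
  have e1 : (12 ^ Fintype.card W * X) ^ δ = (12 ^ Fintype.card W) ^ δ * X ^ δ := Real.mul_rpow (by positivity) hX.le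
  have e2 : (24 ^ Fintype.card W * X) ^ δ = (24 ^ Fintype.card W) ^ δ * X ^ δ := Real.mul_rpow (by positivity) hX.le
  rw [TT, cst, hpow, e1, e2]
  ring

end consts

/-- **The density hypothesis at all places together.** -/
theorem result (K : Type) [Field K] [NumberField K] (W V : Type) [Fintype W] [DecidableEq W] [Nonempty W] [Fintype V]
    [Nonempty V] (S : Setting K W V) (ε : ℝ) (hε : 0 < ε) :
    ∃ C : ℝ, 0 < C ∧ ∀ (ι : Type) [Fintype ι] (L : Level S ι) (F : Set (W → UpperHalfPlane)), S.Covers L.Γ F →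
    ∀ (n : V → ℕ) (Λ : W → ℝ), (∀ w, 1 ≤ Λ w) →
    ∀ (U : W → ℝ) (m : ι → ℕ), (∀ w, 1 ≤ U w) → (∏ w, U w) * L.size m ≤ cond L.𝔫 n →
    ∀ (J : Type) [Fintype J] [DecidableEq J] (f : J → (W → UpperHalfPlane) → (V → ℍ[ℝ]) → ℂ)
      (ϑ : J → W → ℝ) (θ : J → ι → ℝ), IsFamily L F n Λ f ϑ θ →
      (∀ (z : W → UpperHalfPlane) (x : V → S3),
        ∑ j, L.gain U m (ϑ j) (θ j) * ‖f j z (fun v => (x v).1)‖ ^ 2 ≤ bound L.𝔫 C ε n Λ) ∧
      ∑ j, ENNReal.ofReal (L.gain U m (ϑ j) (θ j)) ≤ ENNReal.ofReal (bound L.𝔫 C ε n Λ) * volume F := by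
  classical
  have hδ : 0 < ε / 4 := by positivity
  obtain ⟨M, hM, hreg⟩ := reg_univ S
  obtain ⟨Z0, hZ0, hcount⟩ := count_z S hM hδ
  obtain ⟨CD, hCD, hdiv⟩ := Pool.Agent.H496.R7.div_bound K hδ
  have hc := cst_pos W V hδ hZ0
  have hCD0 : 0 < CD := by linarith
  refine ⟨2 ^ Fintype.card W * 17 ^ Fintype.card W * CD * cst W V (ε / 4) Z0, by positivity, ?_⟩
  intro ι _ L F hFc n Λ hΛ U m hU hUX J _ _ f ϑ θ hfam
  choose lam hf hlam using hfam.form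
  have ho := hfam.orthonormal
  set X : ℝ := cond L.𝔫 n with hX
  set P : ℝ := dims n with hP
  have hP1 : 1 ≤ P := one_le_dims n
  have hX1 : 1 ≤ X := one_le_cond L n
  have hX0 : 0 < X := by linarith
  have hPU1 : 1 ≤ ∏ w, U w := by
    calc (1 : ℝ) = ∏ _w : W, (1 : ℝ) := by simp
      _ ≤ _ := Finset.prod_le_prod (fun _ _ => zero_le_one) fun w _ => hU w
  have hΛ0 : 0 ≤ ∏ w, Λ w := Finset.prod_nonneg fun w _ => by linarith [hΛ w]
  have hszX : L.size m ≤ X := by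
    refine le_trans ?_ hUX
    exact le_mul_of_one_le_left (by linarith [L.one_le_size m]) hPU1
  set D1 : ℝ := ∏ l, (2 * (m l : ℝ) + 1) with hD1
  have hD11 : 1 ≤ D1 := by
    calc (1 : ℝ) = ∏ _l : ι, (1 : ℝ) := by simp
      _ ≤ _ := Finset.prod_le_prod (fun _ _ => zero_le_one) fun l _ => by
        have : (0 : ℝ) ≤ m l := by positivity
        linarith
  have hD3 : D1 ^ 3 ≤ CD * X ^ (ε / 4) := by
    have h1 := hdiv ι L.𝔭 (fun l => ⟨(L.prime l).2, (L.prime l).1.ne_top⟩) L.inj m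
    rw [hD1, ← Finset.prod_pow]
    refine h1.trans (mul_le_mul_of_nonneg_left ?_ hCD0.le)
    exact Real.rpow_le_rpow (Finset.prod_nonneg fun l _ => by positivity) hszX hδ.le
  have hgain0 : ∀ j, 0 ≤ L.gain U m (ϑ j) (θ j) := fun j =>
    mul_nonneg (Finset.prod_nonneg fun w _ => Real.rpow_nonneg (by linarith [hU w]) _)
      (Finset.prod_nonneg fun l _ => by positivity)
  -- the pointwise bound
  have hpt : ∀ (z : W → UpperHalfPlane) (x : V → S3),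
      ∑ j, L.gain U m (ϑ j) (θ j) * ‖f j z (fun v => (x v).1)‖ ^ 2 ≤
        bound L.𝔫 (2 ^ Fintype.card W * 17 ^ Fintype.card W * CD * cst W V (ε / 4) Z0) ε n Λ := by
    intro z x
    set cls : J → Finset W × Finset ι := fun j =>
      (Finset.univ.filter fun w => ¬ (ϑ j w = 0 ∧ |lam j w| ≤ Λ w), Finset.univ.filter fun l => θ j l ≠ 0 ∧ m l ≠ 0) with hcls
    set 𝒞 : Finset (Finset W × Finset ι) :=
      (Finset.univ : Finset W).powerset ×ˢ (Finset.univ.filter fun l => m l ≠ 0).powerset with h𝒞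
    have hmaps : ∀ j ∈ (Finset.univ : Finset J), cls j ∈ 𝒞 := by
      intro j _
      rw [h𝒞, Finset.mem_product, Finset.mem_powerset, Finset.mem_powerset]
      refine ⟨Finset.subset_univ _, fun l hl => ?_⟩
      exact Finset.mem_filter.2 ⟨Finset.mem_univ _, (Finset.mem_filter.1 hl).2.2⟩
    have hcard : (𝒞.card : ℝ) ≤ 2 ^ Fintype.card W * D1 := by
      rw [h𝒞, Finset.card_product, Finset.card_powerset, Finset.card_powerset, Finset.card_univ]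
      push_cast
      refine mul_le_mul_of_nonneg_left ?_ (by positivity)
      rw [← Finset.prod_const, Finset.prod_filter, hD1]
      refine Finset.prod_le_prod (fun l _ => by split_ifs <;> norm_num) fun l _ => ?_
      split_ifs with h
      · have : (1 : ℝ) ≤ m l := by exact_mod_cast Nat.one_le_iff_ne_zero.2 h
        linarith
      · have : (0 : ℝ) ≤ m l := by positivity
        linarith
    set TB : ℝ := (17 ^ Fintype.card W * ∏ w, Λ w) * (D1 ^ 2 * TT W V (ε / 4) Z0 X P) with hTB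
    have hTT : TT W V (ε / 4) Z0 X P = cst W V (ε / 4) Z0 * X ^ (3 * (ε / 4)) * P ^ 2 := TT_eq W V hX0
    have hTT0 : 0 ≤ TT W V (ε / 4) Z0 X P := by
      rw [hTT]
      positivity
    have hTB0 : 0 ≤ TB := by positivity
    have hclass : ∀ c ∈ 𝒞, ∑ j ∈ Finset.univ.filter fun j => cls j = c,
        L.gain U m (ϑ j) (θ j) * ‖f j z (fun v => (x v).1)‖ ^ 2 ≤ TB := by
      rintro ⟨E, Q⟩ -
      have hs : ∑ j ∈ Finset.univ.filter fun j => cls j = (E, Q),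
          L.gain U m (ϑ j) (θ j) * ‖f j z (fun v => (x v).1)‖ ^ 2 =
          ∑ j : {j // cls j = (E, Q)}, L.gain U m (ϑ j) (θ j) * ‖f j z (fun v => (x v).1)‖ ^ 2 :=
        Finset.sum_subtype _ (fun j => by simp) _
      rw [hs]
      have hE : ∀ j : {j // cls j = (E, Q)}, ∀ w, w ∈ E ↔ ¬ (ϑ j w = 0 ∧ |lam j w| ≤ Λ w) := by
        intro j w
        have h1 : (cls j).1 = E := congrArg Prod.fst j.2
        have h2 : w ∈ (cls j).1 ↔ ¬ (ϑ j w = 0 ∧ |lam j w| ≤ Λ w) := by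
          simp only [hcls, Finset.mem_filter, Finset.mem_univ, true_and]
        exact (iff_of_eq (congrArg (fun s => w ∈ s) h1.symm)).trans h2
      have hQ : ∀ j : {j // cls j = (E, Q)}, ∀ l, l ∈ Q ↔ (θ j l ≠ 0 ∧ m l ≠ 0) := by
        intro j l
        have h1 : (cls j).2 = Q := congrArg Prod.snd j.2
        have h2 : l ∈ (cls j).2 ↔ (θ j l ≠ 0 ∧ m l ≠ 0) := by
          simp only [hcls, Finset.mem_filter, Finset.mem_univ, true_and]
        exact (iff_of_eq (congrArg (fun s => l ∈ s) h1.symm)).trans h2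
      have hsec : ∀ j : {j // cls j = (E, Q)}, ∀ w, w ∈ E →
          (0 ≤ ϑ j w ∧ ϑ j w ≤ 1 / 2 ∧ lam j w ≤ 1 / 4 - ϑ j w ^ 2) := by
        intro j w hw
        exact (hlam j w).resolve_left ((hE j w).1 hw)
      refine class_bound L (fun w => w ∈ E) hU hΛ hFc (fun j : {j // cls j = (E, Q)} => f j)
        (lam := fun j => lam j) (ϑ := fun j => ϑ j) (θ := fun j => θ j) (fun j => hf j) (fun i j => ?_)
        (fun j w hw => ?_) (fun j w hw => ?_) (fun j w hw => (hsec j w hw).1) (fun j w hw => (hsec j w hw).2.1)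
        (fun j w hw => (hsec j w hw).2.2) (m := m) (m' := fun l => if l ∈ Q then m l else 0) (fun j l => ?_)
        (fun j => (hfam.hecke j).2 _ fun l hl => ?_) z x hδ hZ0
        (fun U hU i M2 h => hcount ι L (fun w => w ∈ E) z (hreg z) U hU i M2 h) hUX
      · rw [ho]
        simp only [Subtype.ext_iff]
      · exact (not_not.1 (fun h => hw ((hE j w).2 h))).2
      · exact (not_not.1 (fun h => hw ((hE j w).2 h))).1
      · by_cases hl : l ∈ Q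
        · left
          rw [if_pos hl]
        · by_cases hm0 : m l = 0
          · left
            rw [if_neg hl, hm0]
          · right
            refine ⟨if_neg hl, ?_⟩
            by_contra hθ
            exact hl ((hQ j l).2 ⟨hθ, hm0⟩)
      · rw [if_neg]
        intro hlQ
        exact ((hQ j l).1 hlQ).1 hl
    rw [← Finset.sum_fiberwise_of_maps_to hmaps]
    calc ∑ c ∈ 𝒞, ∑ j ∈ Finset.univ.filter fun j => cls j = c,
          L.gain U m (ϑ j) (θ j) * ‖f j z (fun v => (x v).1)‖ ^ 2 ≤ 𝒞.card • TB := Finset.sum_le_card_nsmul _ _ _ hclass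
      _ = (𝒞.card : ℝ) * TB := nsmul_eq_mul _ _
      _ ≤ (2 ^ Fintype.card W * D1) * TB := by gcongr
      _ = (2 ^ Fintype.card W * 17 ^ Fintype.card W * cst W V (ε / 4) Z0) * D1 ^ 3 * X ^ (3 * (ε / 4)) *
          (∏ w, Λ w) * P ^ 2 := by
          rw [hTB, hTT]
          ring
      _ ≤ (2 ^ Fintype.card W * 17 ^ Fintype.card W * cst W V (ε / 4) Z0) * (CD * X ^ (ε / 4)) * X ^ (3 * (ε / 4)) *
          (∏ w, Λ w) * P ^ 2 := by gcongr
      _ = _ := by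
          have h4 : X ^ ε = X ^ (ε / 4) * X ^ (3 * (ε / 4)) := by
            rw [← Real.rpow_add hX0]
            congr 1
            ring
          rw [bound, ← hX, ← hP, h4]
          ring
  refine ⟨hpt, ?_⟩
  -- integration
  set B : ℝ := bound L.𝔫 (2 ^ Fintype.card W * 17 ^ Fintype.card W * CD * cst W V (ε / 4) Z0) ε n Λ with hB
  set ν := (volume.restrict F).prod (Pool.Agent.H496.R4.sgV V) with hν
  have hmeas : ∀ j, Measurable fun p : (W → UpperHalfPlane) × (V → S3) => f j p.1 (fun v => (p.2 v).1) := by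
    intro j
    have hval : Measurable fun p : (W → UpperHalfPlane) × (V → S3) => (fun v => (p.2 v : ℍ[ℝ])) :=
      measurable_pi_iff.2 fun v => measurable_subtype_coe.comp ((measurable_pi_apply v).comp measurable_snd)
    exact (hf j).continuous.measurable.comp (measurable_fst.prodMk hval)
  have hone : ∀ j, ∫⁻ p, ENNReal.ofReal (‖f j p.1 (fun v => (p.2 v).1)‖ ^ 2) ∂ν = 1 := by
    intro j
    have key := Pool.Agent.H496.orth_sum ν (fun j p => f j p.1 (fun v => (p.2 v).1))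
      (fun j => (hmeas j).aestronglyMeasurable) ho (Pi.single j 1)
    have e1 : ∀ p : (W → UpperHalfPlane) × (V → S3),
        ∑ i, (Pi.single j (1 : ℂ) : J → ℂ) i * f i p.1 (fun v => (p.2 v).1) = f j p.1 (fun v => (p.2 v).1) := by
      intro p
      rw [Finset.sum_eq_single j]
      · simp
      · intro i _ hi
        simp [Pi.single_eq_of_ne hi]
      · intro h
        exact absurd (Finset.mem_univ j) h
    have e2 : ∑ i, ‖(Pi.single j (1 : ℂ) : J → ℂ) i‖ ^ 2 = 1 := by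
      rw [Finset.sum_eq_single j]
      · simp
      · intro i _ hi
        simp [Pi.single_eq_of_ne hi]
      · intro h
        exact absurd (Finset.mem_univ j) h
    simp_rw [e1, e2] at key
    rw [key, ENNReal.ofReal_one]
  have hbd : ∀ᵐ p ∂ν, ∑ j, ENNReal.ofReal (L.gain U m (ϑ j) (θ j)) *
        ENNReal.ofReal (‖f j p.1 (fun v => (p.2 v).1)‖ ^ 2) ≤ ENNReal.ofReal B := by
    refine Filter.Eventually.of_forall fun p => ?_
    have e : ∀ j, ENNReal.ofReal (L.gain U m (ϑ j) (θ j)) * ENNReal.ofReal (‖f j p.1 (fun v => (p.2 v).1)‖ ^ 2) =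
        ENNReal.ofReal (L.gain U m (ϑ j) (θ j) * ‖f j p.1 (fun v => (p.2 v).1)‖ ^ 2) := fun j =>
      (ENNReal.ofReal_mul (hgain0 j)).symm
    simp_rw [e]
    rw [← ENNReal.ofReal_sum_of_nonneg fun j _ => mul_nonneg (hgain0 j) (sq_nonneg _)]
    apply ENNReal.ofReal_le_ofReal
    exact hpt p.1 p.2
  calc ∑ j, ENNReal.ofReal (L.gain U m (ϑ j) (θ j)) =
        ∑ j, ENNReal.ofReal (L.gain U m (ϑ j) (θ j)) *
          ∫⁻ p, ENNReal.ofReal (‖f j p.1 (fun v => (p.2 v).1)‖ ^ 2) ∂ν := by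
        simp_rw [hone, mul_one]
    _ = ∫⁻ p, ∑ j, ENNReal.ofReal (L.gain U m (ϑ j) (θ j)) *
          ENNReal.ofReal (‖f j p.1 (fun v => (p.2 v).1)‖ ^ 2) ∂ν := by
        rw [lintegral_finsetSum]
        · refine Finset.sum_congr rfl fun j _ => ?_
          rw [lintegral_const_mul' _ _ ENNReal.ofReal_ne_top]
        · intro j _
          exact (((hmeas j).norm.pow_const 2).ennreal_ofReal).const_mul _
    _ ≤ ∫⁻ _, ENNReal.ofReal B ∂ν := lintegral_mono_ae hbd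
    _ = ENNReal.ofReal B * volume F := by
        rw [lintegral_const, hν, ← univ_prod_univ, Measure.prod_prod, Measure.restrict_apply_univ, measure_univ,
          mul_one]

end Pool.Agent.Results.MP_8410ab_nt.EveryPlace
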