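import Mathlib
import Pool.Agent.H496.R12.Ops
import Pool.Agent.H496.R8.Ex

/-!
# The density hypothesis for `GL_{n+1}` over number fields: all places jointly, in all directions, all Hecke operators

`O` is a discrete subring of the commutative topological ring `R` with the bounded fundamental domain `D`. The main
example: `K` is a number field, `S` a finite set of finite places, `R = K_∞ × ∏_{𝔭 ∈ S} K_𝔭` and `O = 𝓞_K[1/S]` is the
ring of `S`-integers, with `N(x) = ∏_v |x_v|_v` (another one: `R` the adele ring of a global field `K`, `O = K`, `Q = 1`).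
`H` is a closed group of `(n+1) × (n+1)`-matrices over `R` which contains the unitriangular ones
(`H = {h ∈ GL_{n+1}(R) : N(det h) = 1}`), and `Γ ⊆ H` is a group of matrices over `O` which contains the unitriangular
ones, such that the entries `γ_{n+1,j}` (`j ≤ n`) of the last row are `0` or of size `≥ Q`: for instance `Γ = Γ_0(𝔮)`,
where the last row is `(0, …, 0, *)` modulo the ideal `𝔮`, and `Q = N𝔮`. Up to `N𝔮^ε` its covolume is `N𝔮^n`.

A place `𝔭` is given by the integers `𝔬 = 𝓞_𝔭 ⊆ R`, representatives of `𝔬/ϖ𝔬`, the element `ϖ ∈ Rˣ` which is a uniformizer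
at `𝔭` and `1` at the other places, and a scalar `z` (`1` at `𝔭`) which is only used to have
`t_l = z^{l_1 + ⋯ + l_{n+1}} diag(ϖ^{l_1}, …, ϖ^{l_{n+1}})` in `H`. The Hecke operator of degree `k` is the sum over
the cosets `u t_I K_𝔭` in `K_𝔭 diag(ϖ, …, ϖ, 1, …, 1) K_𝔭` (`I` the set of the `k` places with an exponent `1`, and `u`
unitriangular with entries `u_{rs}`, `r ∈ I`, `s ∉ I`, modulo `ϖ`), its eigenvalue is `q^{k(n+1-k)/2} e_k(α)` where
`α ∈ ℂ^{n+1}` are the Satake parameters.

Let `f_1, …, f_r` be orthonormal functions on `Γ \ H` (with a nebentypus), `f_j * κ = Λ_j f_j` for a test function `κ` with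
compact support, and Hecke eigenfunctions at the places `𝔭 ∈ S` with Satake parameters `α_{j,𝔭}`. Let
`W_j(g) = ∫ f_j(ug) ψ(u) du` be their coefficients for a generic character `ψ` (unramified at the places of `S`). Let also
`T f(y) = ∫ c(ω) f(y x(ω)) dτ(ω)` be an operator given by elements `x(ω) = u(ω) t(ω)` of the Borel subgroup,
`T f_j = z_j f_j`; the `t(ω)` have trivial components at the places of `S`.

**Theorem.** Let `g ∈ H` have trivial components at the places of `S` and commute with the `x(ω)`. Let the last rows `c` of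
the matrices `t g b' b⁻¹ g⁻¹ t⁻¹` (`b, b' ∈ supp κ`, `t = t(ω)`) satisfy `N(∏_𝔭 ϖ_𝔭^{-k_𝔭} c_j) < Q` for
`k_𝔭 ≤ M_𝔭`, `j ≤ n`, and `N(c_{n+1} - 1) < 1`. (As `N(ϖ_𝔭^{-1} x) = q_𝔭 N(x)` this is the condition
`N(t_{n+1} / t_j) ∏_𝔭 q_𝔭^{M_𝔭} ≤ c Q` where `c > 0` only depends on `g` and on `κ`.) Then

`∑_j |Λ_j z_j W_j(g)|² ∏_𝔭 ∏_i max(1, |α_{j,𝔭,i}|)^{2 M_𝔭}
  ≤ (∫ |c(ω)| δ(t(ω))^{1/2} dτ)² C(2n+2, n+1)^{|S|} vol(D)^{n(n+1)/2} ∫_{U(R)} |(κ^* * κ)(g⁻¹ug)| du`.

1. (`T = 1`) If `σ_𝔭 = ∑_i log⁺_{q_𝔭} |α_{𝔭,i}|` is the total violation of the Ramanujan conjecture at `𝔭` then the forms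
with `∏_𝔭 q_𝔭^{M_𝔭 σ_𝔭} ≥ X` have total weight `≪ X⁻²`, while the total weight is `≪ 1`. For one place and `q^M ∼ cN𝔮`
this is `≪ N𝔮^{-2σ}`. By unitarity the parameters of absolute value `≠ 1` occur in pairs `q^{σ_i}, q^{-σ_i}`, and with
`σ ≥ max σ_i` only the density hypothesis of Sarnak is obtained, `vol^{-2σ/n}`; the exponent here is the sum of all
`σ_i > 0`. The right hand side does not depend on the places, on `ψ`, or on `M_𝔭`.

2. `T` is for instance the convolution with a function `φ ∈ C_c(K_v \ GL_{n+1}(K_v) / K_v)` at an archimedean place `v` (or a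
ramified or unramified finite place): if the `f_j` are right invariant under `K_v` then by the Iwasawa decomposition
`T f(y) = ∫_B φ(b) f(yb) db` (a finite sum over cosets for a finite place), and the cost `∫_B |φ| δ^{1/2}` is the
eigenvalue of `|φ|` in the representation induced from the trivial character of the torus, the spectral radius of `|φ|` in
the tempered spectrum. So for all `φ ≥ 0` the Ramanujan bound `|z_j| ≤ ‖φ‖_{temp}` is valid on average, jointly
with the bounds at the places of `S`, and for functions `φ` of any size up to the level: `N(t_{n+1}/t_j) ≤ c Q` for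
`t K_v ⊂ supp φ`. If a form is not tempered at `v`, with the spectral parameter `σ_v`, then `z_j` is larger than the cost by
`N(t)^{σ_v}`, hence the total weight of these forms is `≪ N𝔮^{-2σ_v + ε}`, as at the finite places. (By means of `Λ_j` one
would only get the square root of this, since the support of `κ^* * κ` is twice as large as that of `κ`.) For a
congruence subgroup of `GL_{n+1}(K_𝔭)` with Iwahori factorization the operators of contracting `t` (the `U_𝔭`-operators)
are of this form too.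

Proof. The formula of Shintani is not assumed. (a) The values `a(l) = δ(t_l)^{-1/2} W(t_l g)` vanish for non dominant `l`
and satisfy the Pieri relations `e_k(α) a(l) = ∑_{|I| = k} a(l + 1_I)` for dominant `l` by the Hecke relations. (b) The
alternating extension `A` of `a(· - ρ)` to `ℤ^{n+1}` satisfies them everywhere, so by the theorem on symmetric polynomials
`e_k(α^M) A(ρ) = ∑_{|J| = k} A(ρ + M 1_J)`. (c) By the inequality of Landau for `∏ (X - α_i^M)`,
`∏ max(1, |α_i|)^{2M} ≤ ∑_k |e_k(α^M)|²`; so `∏ max(1, |α_i|)^{2M} |a(0)|² ≤ ∑_J C(n+1, |J|) |a(l_J)|²` with dominant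
`l_J`, `0 ≤ l_J ≤ M`. (d) For each `t = ∏_𝔭 t_{l_𝔭}` the Bessel inequality for the Poincaré series of `κ` gives
`∑_j |Λ_j W_j(tg)|² ≤ δ(t) B_g`: by the product formula only the `γ` with last row `(0, …, 0, 1)` remain, and for these the
sum over the columns of `γ` is an orthogonality relation, which leaves the identity only. (e) `|W_j(utg)| = |W_j(tg)|`
for unitriangular `u`, and `B_{tg} = δ(t) B_g`; so `z_j W_j(g) = ∫ c(ω) W_j(x(ω) g) dτ` is estimated by the inequality of
Minkowski in `ℂ^r` with the weights `|Λ_j|² ∏ max(1, |α|)^{2M}`.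
-/

set_option autoImplicit false

namespace Pool.Agent.Results.MP_8410ab_nt.HeckeAllPlaces

open MeasureTheory Matrix Pool.Agent.H496.R8 Pool.Agent.H496.R10 Pool.Agent.H496.R12
open scoped Classical

theorem result {R : Type*} [CommRing R] [TopologicalSpace R] [IsTopologicalRing R] [MeasurableSpace R]
    [BorelSpace R] [SecondCountableTopology R] [T2Space R] {n : ℕ}
    -- the group `H` with its Haar measure, as a group of matrices
    {H : Type*} [Group H] [TopologicalSpace H] [IsTopologicalGroup H] [SecondCountableTopology H] [T2Space H]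
    [MeasurableSpace H] [BorelSpace H] (E : H →* Matrix (Fin (n + 1)) (Fin (n + 1)) R) (hE : IsMatGroup E)
    (vol : Measure H) [SigmaFinite vol] [IsFiniteMeasureOnCompacts vol] [vol.IsMulLeftInvariant]
    -- the ring `O`, the Haar measure `m` of `R` and its module `ρ`, the character `ψ`
    (O : Subring R) (D : Set R) (hP : IsPair O D) (m : Measure R) [SigmaFinite m] [IsFiniteMeasureOnCompacts m]
    [m.IsAddLeftInvariant] [m.IsNegInvariant] (ρ : Rˣ →* ℝ) (hρ : IsMod m ρ) (χ : AddChar R Circle)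
    (hχ : Continuous χ) (μ : ℕ → R) (hμ : ∀ i < n, IsDual O χ (μ i))
    -- the group `Γ` and the forms
    (N : R → ℝ) (Q : ℝ) (Γ : Subgroup H) (hΓ : IsLevel E O Γ N Q) (ϑ : Γ →* Circle) (hϑ : IsNeb E Γ ϑ)
    (F : Set H) {J : Type*} [Fintype J] [DecidableEq J] (f : J → H → ℂ) (hf : IsForms vol Γ F ϑ f)
    -- the test function
    (κ : H → ℂ) (hκ : IsK κ) (C : Set H) (h0 : ∀ x ∉ C, κ x = 0) (Λ : J → ℂ)
    (hΛ : ∀ j x, ∫ y, f j (x * y) * κ y ∂vol = Λ j * f j x)
    -- the finite places and the Satake parameters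
    {ι : Type*} (S : Finset ι) (P : ι → Place R) (hpl : ∀ p ∈ S, IsPlace E ρ χ μ (P p))
    (hS : ∀ p ∈ S, ∀ p' ∈ S, p ≠ p' → ∀ x ∈ (P p').o, ((P p).ϖ : R) * x = x)
    (α : ι → J → Fin (n + 1) → ℂ) (hα : ∀ p ∈ S, ∀ j, IsHecke E (P p) (α p j) (f j))
    -- the operator `T`
    {Ω : Type*} [MeasurableSpace Ω] (τ : Measure Ω) [SFinite τ] (c : Ω → ℂ) (x t : Ω → H)
    (a : Ω → Fin (n + 1) → Rˣ) (hT : IsOp E ρ P S τ c x t a) (z : J → ℂ)
    (hz : ∀ j y, ∫ ω, c ω * f j (y * x ω) ∂τ = z j * f j y)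
    -- the range
    (M : ι → ℕ) (g : H) (hg : ∀ p ∈ S, IsAway E (P p) g)
    (hR : ∀ ω, c ω ≠ 0 → Commute g (x ω) ∧ IsRange E N Q C (t ω * g) P S M) :
    ∑ j, ‖Λ j‖ ^ 2 * ‖z j‖ ^ 2 * (∏ p ∈ S, (∏ i, max 1 ‖α p j i‖) ^ (2 * M p)) * ‖Wh E m D χ μ (f j) g‖ ^ 2 ≤
      cost ρ τ c a ^ 2 * (((2 * (n + 1)).choose (n + 1) : ℝ) ^ S.card * bd E m D vol κ g) :=
  ops m hP hχ hμ hE hρ hΓ hϑ hf hκ h0 hΛ S hpl hα hS hT hz hg hR

end Pool.Agent.Results.MP_8410ab_nt.HeckeAllPlaces
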