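import Pool.Agent.H500.ME.Ram

set_option autoImplicit false
set_option linter.unusedSectionVars false

/-!
# The Ramanujan conjecture for `π` with solvable residual representations

Let `π` be an algebraic cuspidal automorphic representation of `GL_n` over the number field `K` (with no
condition of regularity, and `K` arbitrary), unramified at the places `v ∤ N`, with Hecke polynomials
`P v` (of `π_v ⊗ |det|^((1-n)/2)`) with coefficients in the ring of integers of a number field `E`.
Suppose that for a set of primes `λ` of `E` of positive upper density the `P v` are matched modulo `λ` by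
a residual representation of the absolute Galois group of `K` with solvable image.

The theorem: there are integers `m_1, …, m_n` such that for ALL `v ∤ N` and all embeddings `E → ℂ` the
absolute values of the roots of `P v` are `(N v)^(m_i/2)`: the weights do not depend on `v`.  If at ONE
place `v ∤ N` and for one embedding the absolute values lie strictly between `(N v)^((w-1)/2)` and
`(N v)^((w+1)/2)`, then all the `m_i` are equal to `w`.  For a cuspidal `π` with unitary `π ⊗ |det|^(w'/2)`
this bound is the trivial bound of Jacquet and Shalika, so the Ramanujan conjecture holds for `π` at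
all places `v ∤ N`.

The theorem is about arbitrary polynomials `P v`; nothing is assumed about automorphy.
-/

namespace Pool.Agent.Results.MP_8410ab_nt.SolvableResidualImages

open NumberField IsDedekindDomain Filter Topology Polynomial
open Pool.Agent.W401.Cheb (dens)
open Pool.Agent.H500.ME (SolvableAt)

theorem result (K E : Type) [Field K] [NumberField K] [Field E] [NumberField E] (N n : ℕ)
    (hN : 2 ≤ N) (P : HeightOneSpectrum (𝓞 K) → (𝓞 E)[X])
    (h : ¬ Tendsto (dens (SolvableAt N n P)) atTop (𝓝 0)) :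
    ∃ m : Fin n → ℤ,
      (∀ (τ : E →+* ℂ) (v : HeightOneSpectrum (𝓞 K)), (N : 𝓞 K) ∉ v.asIdeal →
        ∃ α : Fin n → ℂ, (P v).map (τ.comp (algebraMap (𝓞 E) E)) = ∏ i, (X - C (α i)) ∧
          ∀ i, ‖α i‖ = (Ideal.absNorm v.asIdeal : ℝ) ^ ((m i : ℝ) / 2)) ∧
      ∀ (w : ℤ) (τ : E →+* ℂ) (v : HeightOneSpectrum (𝓞 K)), (N : 𝓞 K) ∉ v.asIdeal →
        (∀ z ∈ ((P v).map (τ.comp (algebraMap (𝓞 E) E))).roots,
          (Ideal.absNorm v.asIdeal : ℝ) ^ (((w : ℝ) - 1) / 2) < ‖z‖ ∧
          ‖z‖ < (Ideal.absNorm v.asIdeal : ℝ) ^ (((w : ℝ) + 1) / 2)) →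
        ∀ i, m i = w := by
  obtain ⟨m, hm⟩ := Pool.Agent.H500.ME.ram N n hN P
    (Pool.Agent.H500.MW.PosUD.mono (Pool.Agent.H500.MW.posUD_of_not h) fun _ hv => hv.solRes)
  refine ⟨m, hm, fun w τ v hv hb i => ?_⟩
  obtain ⟨α, hα, hα2⟩ := hm τ v hv
  have h1 : α i ∈ ((P v).map (τ.comp (algebraMap (𝓞 E) E))).roots := by
    rw [hα, mem_roots (monic_prod_of_monic _ _ fun k _ => monic_X_sub_C _).ne_zero, IsRoot,
      eval_prod]
    exact Finset.prod_eq_zero (Finset.mem_univ i) (by simp)
  obtain ⟨h2, h3⟩ := hb _ h1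
  rw [hα2] at h2 h3
  have hone : (1 : ℝ) < (Ideal.absNorm v.asIdeal : ℝ) := by
    exact_mod_cast Pool.Agent.H500.ME.one_lt_norm v
  rw [Real.rpow_lt_rpow_left_iff hone] at h2 h3
  have h4 : ((w - 1 : ℤ) : ℝ) < (m i : ℝ) := by push_cast; linarith
  have h5 : (m i : ℝ) < ((w + 1 : ℤ) : ℝ) := by push_cast; linarith
  have h6 : w - 1 < m i := by exact_mod_cast h4
  have h7 : m i < w + 1 := by exact_mod_cast h5
  omega

end Pool.Agent.Results.MP_8410ab_nt.SolvableResidualImages
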